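import Pool.Agent.Q41.SP.Defs
import Pool.Agent.Q41.SU.Stm2
import Pool.Agent.Q41.SU.Stm3
import Pool.Agent.Q41.SU.Stm4

/-!
# Statements, part 2: numerical core and local dynamics
-/

namespace Pool.Agent.Q41.SP

open Finset Polynomial
open Pool.Agent.W277.UH (q₀ wd vm gmK)
open Pool.Agent.Q41.SU

universe u

/-- (Q1) **The weighted minimum for large `q`**, `Θ = J q`, box `[0, Θ b] × [0, b]`. Proof. For a
set `T` of `n` points of the box and a real `y ≥ 0`,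
`∑_T (s + Θ r) ≥ n y - ∑_{(s, r) ≥ 0} (y - s - Θ r)⁺`. (i) `n ≤ Θ`: with `y = n`: the points with
`s + Θ r < n` have `r = 0`, so `phi ≥ n ^ 2 - n (n + 1) / 2 = n (n - 1) / 2`. On the left
`(49 / 48) n (n - 1) / b + ν n (n - 1) / (2 b) ≤ n (n - 1) / 400` and
`J ν n ≤ n (n - 1) / 16` as `n - 1 ≥ 16 J ν`. (ii) `n > Θ`: for an integer `1 ≤ j ≤ b`, `y = Θ j`:
`∑_{r ≤ j} ∑_{s ≥ 0} (Θ (j - r) - s)⁺ = Θ ^ 2 j (j + 1) (2 j + 1) / 12 + Θ j (j + 1) / 4`, because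
`∑_{s ≥ 0} (m - s)⁺ = m (m + 1) / 2`. So
`phi ≥ Θ j n - Θ ^ 2 j (j + 1) (2 j + 1) / 12 - Θ j (j + 1) / 4`. With `x = sqrt (2 n / Θ)` (so
`x > sqrt 2`; `2 n ≤ (Θ b + 1) (b + 1)` gives `x ≤ b + 2` or so) and `j = ⌊x⌋` or `b` the bound is about
`(2 / 3) Θ x n` for large `x`, at least `n Θ / 4` always (`n > Θ`, `j = 1` gives
`Θ n - Θ ^ 2 / 2 - Θ / 2`). The left side: `(49 / 48) n (n - 1) / b ≤ (49 / 96) Θ x ^ 2 n / b`, which is
at most about `(49 / 96) Θ x n`; `J ν n ≤ Θ n / 1000` as `q ≥ 1000 ν`; and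
`ν min (Θ n, n (n - 1) / (2 b)) ≤ Θ n min (ν, ν x ^ 2 / (4 b))`, which is at most
`Θ x n / 60` because `b ≥ 1000 ν ^ 2` (geometric mean of the two: `ν x / (2 sqrt b)`). The inequality
was checked numerically with `b = 1000 ν ^ 2`, `q = 1000 ν` for many `J`, `n`: the ratio of the right
side to the left side is at least `1.30`. (Compare `S_num`, proof `Q198/SU/Num.lean`.) -/
def S_numP : Prop :=
  ∀ J q ν b n : ℕ, 2 ≤ J → 1 ≤ ν → 1000 * ν ^ 2 ≤ b → 1000 * ν ≤ q → 16 * J * ν < n →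
    2 * n ≤ (J * q * b + 1) * (b + 1) →
    (49 : ℝ) / 48 * (n * (n - 1)) / b + ν * min ((J : ℝ) * q * n) (n * (n - 1) / (2 * b)) +
      J * ν * n ≤ phi 1 (J * q) (J * q * b) b n

/-- (Q2) **The numerical contradiction, twisted.** `q = l ^ r`, `Θ = J q`, `a = Θ b`,
`N = (Θ b + 1) (b + 1)`; `T₀` is the set of places, `S` the bad ones, `Γ` the group, `En` the energies,
`o` the contact orders, `R` the resultants. Choose `b ≥ 1000 ν ^ 2` only. Given `C₀` choose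
`J ≥ 2` with `J b η ≥ 2000 ν ^ 2 C₀`, then `n` with `d ^ n ≥ 8 / c'`, `d ^ n ≥ 10 ^ 5 J ν / η`, then `r`
with `q ≥ 1000 ν`, `q ≥ 10 ^ 6 J ν ^ 2 d ^ n / η`, `q ≥ 10 ^ 4 ν! / η`, `N ≥ N₁`, `N ≥ d ^ (2 n)`.
Proof. Let `ℰ = ∑_S ∑_Γ R / e` (so `ℰ ≥ |S| / ν!`, `ℰ > 0`). By `hzero`, `hlow` and `En ≥ 0` at the
places outside `S`, the sum of `En / e` over any set of pairs `(t, g)` is at most
`4 N² ℰ / d ^ n`; so the pairs in `S × Γ` with `En > c' N² R` carry at most half of `ℰ` and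
`∑_{T₀ \ S} ∑ En / e ≤ 4 N² ℰ / d ^ n`. In the last hypothesis move the terms of `S` to the left. Let
`g(m) = gam a b Θ m - J ν (K1 a b m + q K2 a b m)`. (1) Outside `S`:
`K1 m + q K2 m ≤ m (m - 1) / b` for all `m ≥ 1`, and `LS (m (m - 1)) = ∑ o = En` (`S_lsq`). (2) On `S`:
all the classes of level `≥ 1` have at most `N / 2` elements. By `S_phi`:
`phi 1 0 m + Θ phi 0 1 m ≤ m (m - 1) / b`, `K1 m ≤ min (m, m (m - 1) / (2 b))`,
`q K2 m ≤ min (q m, m (m - 1) / (2 J b))`. For `m > 16 J ν` use (Q1):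
`g(m) ≥ m (m - 1) / (48 b) ≥ (Θ b / (48 N)) m (m - 1)`. For `2 ≤ m ≤ 16 J ν` (`≤ Θ`):
`phi 1 Θ m = m (m - 1) / 2` (at least), `phi 1 0 m ≤ m (m - 1) / (2 (b + 1))`, `phi 0 1 m = 0`, so
`g(m) ≥ m (m - 1) / 4 - (J ν / (2 b)) m (m - 1) - (ν / (2 b)) m (m - 1)
≥ (Θ b / (48 N)) m (m - 1) - (J ν / (2 b)) m (m - 1)`. In both cases
`g(m) ≥ (Θ b / (48 N)) m (m - 1) - (J ν / (2 b)) m min (m - 1, 16 J ν)`, also for `m = 1`.
(3) `LS (m min (m - 1, 16 J ν))`: the levels `i ≤ T R`, `T = 33 d ^ n`, give at most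
`16 J ν N T R`, the levels `i > T R` at most `∑_{i ≠ i'} max 0 (o - T R) ≤ 17 (En + 4 N² R / d ^ n)`,
and the sum of this over `S × Γ`, divided by `e`, is at most `17 * 4 N² ℰ / d ^ n` (`∑_S ∑ En / e ≤ 0`).
(4) `∑_S ∑ (∑ o) / e ≥ η N² ℰ / 2`. Together
`(Θ b / (48 N)) (η / 2) N² ℰ ≤ |S| (q ν² c + 1 + Θ) + (J ν / b) 4 N² ℰ / d ^ n
+ (J ν / (2 b)) (16 J ν T N ℰ + 68 N² ℰ / d ^ n)`. Divide by `Θ b N ℰ`, with `|S| c ≤ C₀ N ℰ`,
`|S| ≤ ν! ℰ`, `Θ b ^ 2 ≤ N ≤ 4 Θ b ^ 2`: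
`η / 96 ≤ ν² C₀ / (J b) + 2 ν! / (b N) + 160 J ν / d ^ n + 300 J ν ^ 2 d ^ n / (q b ^ 2)`, a
contradiction. (Compare `S_numcore`, `Q41/SU/Stm6.lean`, proof `Q128/SU/NumCore.lean`.
`S_numP`, `S_phi`, `S_lsq` may be assumed.) -/
def S_ncP : Prop :=
  ∀ (l d ν N₁ : ℕ) (c' η : ℝ), 2 ≤ l → 2 ≤ d → 1 ≤ ν → 0 < c' → c' ≤ 1 → 0 < η →
    ∃ b : ℕ, 1 ≤ b ∧ ∀ C₀ : ℕ, ∃ J r n : ℕ, 2 ≤ J ∧
    N₁ ≤ (J * l ^ r * b + 1) * (b + 1) ∧ d ^ (2 * n) ≤ (J * l ^ r * b + 1) * (b + 1) ∧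
    ∀ (A : Type u) (T₀ S : Finset A) (_ : S ⊆ T₀) (_ : S.Nonempty) (Γ : Type u) [Fintype Γ]
      (_ : Fintype.card Γ = ν) (e : A → ℕ) (_ : ∀ t ∈ T₀, 1 ≤ e t ∧ e t ≤ ν.factorial)
      (R : A → Γ → ℕ) (En : A → Γ → ℝ) (M c : ℕ)
      (o : A → Γ → II (J * l ^ r * b) b → II (J * l ^ r * b) b → ℤ)
      (_ : ∀ t ∈ T₀, ∀ g i i', i ≠ i' → 0 ≤ o t g i i' ∧ o t g i i' ≤ M)
      (_ : ∑ t ∈ T₀, ∑ g, En t g / e t = 0)
      (_ : ∀ t ∈ T₀, ∀ g, -(4 * (((J * l ^ r * b + 1) * (b + 1) : ℕ) : ℝ) ^ 2 * R t g /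
        (d : ℝ) ^ n) ≤ En t g)
      (_ : ∀ t ∈ T₀, t ∉ S → ∀ g, En t g = ∑ i, ∑ i' ∈ univ.erase i, (o t g i i' : ℝ))
      (_ : ∀ t ∈ S, ∃ g, 1 ≤ R t g)
      (_ : ∀ t ∈ S, ∀ g i, 2 * cnt (o t g) 1 i ≤ (J * l ^ r * b + 1) * (b + 1))
      (_ : ∀ t ∈ S, ∀ g, 1 ≤ R t g →
        En t g ≤ c' * (((J * l ^ r * b + 1) * (b + 1) : ℕ) : ℝ) ^ 2 * R t g →
        η * (((J * l ^ r * b + 1) * (b + 1) : ℕ) : ℝ) ^ 2 * R t g ≤
          ∑ i, ∑ i' ∈ univ.erase i, (o t g i i' : ℝ))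
      (_ : ∀ t ∈ S, ∀ g, ∑ i, ∑ i' ∈ univ.erase i,
          max 0 ((o t g i i' : ℝ) - 33 * (d : ℝ) ^ n * R t g) ≤
        17 * (En t g + 4 * (((J * l ^ r * b + 1) * (b + 1) : ℕ) : ℝ) ^ 2 * R t g / (d : ℝ) ^ n))
      (_ : (S.card : ℝ) * c ≤ C₀ * (((J * l ^ r * b + 1) * (b + 1) : ℕ) : ℝ) *
        ∑ t ∈ S, ∑ g, (R t g : ℝ) / e t)
      (_ : ∑ t ∈ S, ∑ g, LS (gam (J * l ^ r * b) b (J * l ^ r)) M (o t g) / e t ≤
        (S.card : ℝ) * ((l : ℝ) ^ r * ((ν : ℝ) ^ 2 * c) + 1 + J * (l : ℝ) ^ r) +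
          J * ν * ∑ t ∈ T₀, ∑ g, (LS (K1 (J * l ^ r * b) b) M (o t g) +
            (l : ℝ) ^ r * LS (K2 (J * l ^ r * b) b) M (o t g)) / e t), False

/-- (L1) **Vector form of the local theorem, truncated energies, any characteristic.** It is `S_lv`
of `Q41/SU/Stm4.lean` (proof `Pool.Agent.Q41.SU.lv` in `Q41/SU/LV.lean`) with two changes. (i) The
hypothesis that the natural numbers have norm `1` in `Ω` is replaced by an infinite field `k` of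
constants, whose nonzero elements have norm `1`, contained in `K`. The hypothesis `hnat` is used only
through the lemmas `exists_fam`, `exists_famK`, `exists_scale`, `exists_minimal` of
`Pool/Agent/W277/UH` (files `L4`, `L7`, `L8`), which need infinitely many vectors `(c, 1)` in different
residue classes: take `c` in `k` in place of `c` in the natural numbers (these lemmas have to be
proved again). (ii) In the energy clause `-log ‖wd‖` is replaced by its minimum with `d ^ n R`. The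
proof of `Pool.Agent.W277.UH.energy` (file `L5`) is done with the truncated kernels
`kw T`, `T = d ^ n R / (d - 1)`, and the step `hself` there, `kw T ≤ -log ‖wd‖`, is simply omitted;
the rest of the computation is unchanged. -/
def S_lvP : Prop :=
  ∀ (k Ω K : Type u) [Field k] [Infinite k] [NormedField Ω] [IsUltrametricDist Ω] [IsAlgClosed Ω]
    [Field K] [DecidableEq K] [Algebra k K] [Algebra k Ω]
    (_ : ∀ c : k, c ≠ 0 → ‖algebraMap k Ω c‖ = 1)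
    (ι : K →+* Ω) (_ : ∀ c : k, ι (algebraMap k K c) = algebraMap k Ω c)
    (ord : K → ℤ) (_ : ∀ x : K, x ≠ 0 → ‖ι x‖ = Real.exp (-(ord x : ℝ)))
    (d : ℕ) (_ : 2 ≤ d) (p q : K[X])
    (_ : p.natDegree ≤ d) (_ : q.natDegree = d) (_ : IsCoprime p q) (P : Finset K)
    (_ : Stab p q P) (a : K → ℝ)
    (_ : ∀ z ∈ P, (d : ℝ) * a z = ord (q.eval z) + a (p.eval z / q.eval z)),
    ∃ (U V : K × K) (s : K) (R : ℕ) (t : K → K) (X : K → K × K) (A : K → ℝ),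
      wd U V ≠ 0 ∧ s ≠ 0 ∧
      (R : ℝ) / (d * ((d : ℝ) - 1)) = (ord (resultant q p d d) : ℝ) / (d * ((d : ℝ) - 1)) +
        ord (wd U V) + 2 * ord s / ((d : ℝ) - 1) ∧
      (∀ z, t z ≠ 0 ∧ ‖vm ι (X z)‖ = 1 ∧ t z • gmK U V (X z) = (z, 1) ∧
        A z = a z - ord (t z) + ord s / ((d : ℝ) - 1)) ∧
      (∀ z ∈ P, 0 ≤ A z ∧ A z ≤ R / ((d : ℝ) - 1)) ∧
      (∀ Y ⊆ P, ∀ n : ℕ, (d : ℝ) ^ (2 * n) ≤ Y.card →
        -(4 * (Y.card : ℝ) ^ 2 * R / (d : ℝ) ^ n) ≤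
        ∑ z ∈ Y, ∑ z' ∈ Y, if z = z' then 0 else
          (min (-Real.log ‖wd (vm ι (X z)) (vm ι (X z'))‖) ((d : ℝ) ^ n * R) - A z - A z' +
            (R : ℝ) / (d * ((d : ℝ) - 1)))) ∧
      (1 ≤ R → ∃ χ : K → Fin (q₀ d), ∀ z ∈ P, ∀ z' ∈ P, z ≠ z' → χ z = χ z' →
        (R : ℝ) / (8 * d * (d + 1)) ≤ -Real.log ‖wd (vm ι (X z)) (vm ι (X z'))‖ - 2 * A z +
          (R : ℝ) / (d * ((d : ℝ) - 1)))

/-- (L2) **The centroid**, with three additional bounds. It is `S_e2` of `Q41/SU/Stm4.lean` (proof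
`Pool.Agent.Q58.SU`, file `Q58/SU/Cent.lean`) for the same choice of `h`, `l₀`, with the following
additions. Write `τ_l = min (h, o(l, l₀))`, `τ_{l₀} = h`, `o' = blow o h l₀ = o + h - τ_l - τ_m ≤ o + h`,
`G = ∑_{l ≠ m} (o - A_l - A_m + h₀)`, `h₀ = R / (d (d - 1))`. (a) If `G ≤ c' N² R`, `R ≥ 1`, then
`h ≤ 24 R` (shown in the proof of `S_e2`), `w_l = A_l - τ_l + (h - h₀) / 2 ≤ 13 R` and
`∑ o' = G + 2 (N - 1) ∑ w_l ≤ 27 N² R`. (b) Let `T = d ^ n R`. If the truncated sum is at least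
`-4 N² R / d ^ n` then `∑_{l ≠ m} max (0, o - T) = G - (truncated sum) ≤ G + 4 N² R / d ^ n`. If
`h ≤ 32 R` then `o' ≤ o + 32 R` and `max (0, o' - 33 d ^ n R) ≤ max (0, o - T)`. If `h > 32 R`: the
class `C` of `l₀` of level `h` has more than `N / 2` elements and `o ≥ h` on it, so
`G ≥ |C| (|C| - 1) h - 2 (N - 1) ∑ A_l ≥ N² h / 5 - 2 N² R ≥ N² h / 8`, and
`∑ max (0, o' - 33 d ^ n R) ≤ ∑ max (0, o - T) + N² h ≤ 9 G + 4 N² R / d ^ n`. -/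
def S_e2P : Prop :=
  ∀ d : ℕ, 2 ≤ d → ∃ (N₁ : ℕ) (c' η : ℝ), 0 < c' ∧ c' ≤ 1 ∧ 0 < η ∧
    ∀ (J : Type) [Fintype J] [DecidableEq J] (o : J → J → ℤ) (_ : ∀ l m, o l m = o m l)
    (_ : ∀ l m, l ≠ m → 0 ≤ o l m)
    (_ : ∀ l m n, l ≠ m → m ≠ n → l ≠ n → min (o l m) (o m n) ≤ o l n) (A : J → ℝ) (R : ℕ)
    (_ : ∀ l, 0 ≤ A l ∧ A l ≤ R / ((d : ℝ) - 1)) (χ : J → Fin (q₀ d))
    (_ : 1 ≤ R → ∀ l m, l ≠ m → χ l = χ m → (R : ℝ) / (8 * d * (d + 1)) ≤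
      o l m - 2 * A l + (R : ℝ) / (d * ((d : ℝ) - 1))) (_ : N₁ ≤ Fintype.card J),
    ∃ (h : ℕ) (l₀ : J), (∀ l m, l ≠ m → 0 ≤ blow o h l₀ l m) ∧
      (∀ l, 2 * cnt (blow o h l₀) 1 l ≤ Fintype.card J) ∧
      (1 ≤ R → ∑ l, ∑ m ∈ univ.erase l, ((o l m : ℝ) - A l - A m + R / (d * ((d : ℝ) - 1))) ≤
        c' * (Fintype.card J : ℝ) ^ 2 * R →
        η * (Fintype.card J : ℝ) ^ 2 * R ≤ ∑ l, ∑ m ∈ univ.erase l, (blow o h l₀ l m : ℝ) ∧
        ∑ l, ∑ m ∈ univ.erase l, (blow o h l₀ l m : ℝ) ≤ 30 * (Fintype.card J : ℝ) ^ 2 * R) ∧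
      ∀ n : ℕ, -(4 * (Fintype.card J : ℝ) ^ 2 * R / (d : ℝ) ^ n) ≤
          ∑ l, ∑ m ∈ univ.erase l, (min (o l m : ℝ) ((d : ℝ) ^ n * R) - A l - A m +
            R / (d * ((d : ℝ) - 1))) →
        ∑ l, ∑ m ∈ univ.erase l, max 0 ((blow o h l₀ l m : ℝ) - 33 * (d : ℝ) ^ n * R) ≤
          17 * (∑ l, ∑ m ∈ univ.erase l, ((o l m : ℝ) - A l - A m + R / (d * ((d : ℝ) - 1))) +
            4 * (Fintype.card J : ℝ) ^ 2 * R / (d : ℝ) ^ n)

/-- (L3) **The local theorem, any characteristic.** It is `S_loc` of `Q41/SU/Stm4.lean` (proof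
`Pool.Agent.Q241.SU.L4.t_L4`, file `Q241/SU/L4.lean`), with the additional clauses of (L2). Proof.
The same, from (L1), (L2) and the rescaling `S_resc` (`Q58/SU/Resc.lean`); `k` is infinite because it
is algebraically closed. The contact orders of the vectors are `o z z' = u (m₀ z - m₀ z')`, and
`o - A - A' + R / (d (d - 1)) = gg`. The truncated energy clause of (L1) for `Y` the image of `x`
gives the hypothesis of the last clause of (L2). -/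
def S_locP : Prop :=
  ∀ d : ℕ, 2 ≤ d → ∃ (N₁ : ℕ) (c' η : ℝ), 0 < c' ∧ c' ≤ 1 ∧ 0 < η ∧
    ∀ (k K Ω : Type u) [Field k] [IsAlgClosed k] [Field K] [Algebra k K]
    [NormedField Ω] [IsUltrametricDist Ω] [IsAlgClosed Ω] [Algebra k Ω]
    (_ : ∀ c : k, c ≠ 0 → ‖algebraMap k Ω c‖ = 1) (j : K →ₐ[k] Ω) (e : ℕ) (u : K → ℤ)
    (_ : IsPl k j e u) (p q : K[X]) (_ : p.natDegree ≤ d) (_ : q.natDegree = d)
    (_ : IsCoprime p q) (P : Finset K) (_ : Stab p q P) (a : K → ℝ)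
    (_ : ∀ z ∈ P, (d : ℝ) * a z = u (q.eval z) + a (p.eval z / q.eval z)),
    ∃ R : ℕ,
      (∀ (J : Type) [Fintype J] [DecidableEq J] (x : J → K), Function.Injective x →
        (∀ l, x l ∈ P) → ∀ n : ℕ, (d : ℝ) ^ (2 * n) ≤ Fintype.card J →
        -(4 * (Fintype.card J : ℝ) ^ 2 * R / (d : ℝ) ^ n) ≤
          ∑ l, ∑ m ∈ univ.erase l, gg u a d p q (x l) (x m)) ∧
      (R = 0 → ∃ m : Mb K, m.det ≠ 0 ∧ (∀ z ∈ P, m.den z ≠ 0 ∧ ‖j (m.app z)‖ ≤ 1) ∧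
        ∀ z ∈ P, ∀ z' ∈ P, z ≠ z' → (u (m.app z - m.app z') : ℝ) = gg u a d p q z z') ∧
      ∀ (J : Type) [Fintype J] [DecidableEq J] (x : J → K), Function.Injective x →
        (∀ l, x l ∈ P) → N₁ ≤ Fintype.card J →
        ∃ m : Mb K, m.det ≠ 0 ∧ (∀ l, m.den (x l) ≠ 0 ∧ ‖j (m.app (x l))‖ ≤ 1) ∧
          (∀ l, 2 * cnt (fun l l' => u (m.app (x l) - m.app (x l'))) 1 l ≤ Fintype.card J) ∧
          (1 ≤ R → ∑ l, ∑ l' ∈ univ.erase l, gg u a d p q (x l) (x l') ≤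
            c' * (Fintype.card J : ℝ) ^ 2 * R →
            η * (Fintype.card J : ℝ) ^ 2 * R ≤
              ∑ l, ∑ l' ∈ univ.erase l, (u (m.app (x l) - m.app (x l')) : ℝ) ∧
            ∑ l, ∑ l' ∈ univ.erase l, (u (m.app (x l) - m.app (x l')) : ℝ) ≤
              30 * (Fintype.card J : ℝ) ^ 2 * R) ∧
          ∀ n : ℕ, (d : ℝ) ^ (2 * n) ≤ Fintype.card J →
            ∑ l, ∑ l' ∈ univ.erase l,
              max 0 ((u (m.app (x l) - m.app (x l')) : ℝ) - 33 * (d : ℝ) ^ n * R) ≤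
            17 * (∑ l, ∑ l' ∈ univ.erase l, gg u a d p q (x l) (x l') +
              4 * (Fintype.card J : ℝ) ^ 2 * R / (d : ℝ) ^ n)

/-- (L4) **Divisible cross differences.** `o` is a matrix of contact orders (symmetric,
nonnegative, ultrametric) all of whose cross differences are divisible by `L`; the classes of level
`1` have at most `N / 2` elements, `N = |J| ≥ 4`. Proof. Call a pair close if `o ≥ 1`; closeness is
an equivalence relation with classes `{m | m = l ∨ 1 ≤ o l m}` of at most `N / 2` elements. (i) There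
are at least three classes. Let `a, b` be close, `a ≠ b`. There are `c`, `e` in two different classes,
both different from the class of `a`; then `o c e = o a c = o b e = 0`, so `L` divides `o a b`, which
is positive, so `o a b ≥ L`. Hence `L #{close pairs} ≤ ∑ o`. (ii) There are exactly two classes; they
have `N / 2 ≥ 2` elements each. For `a ≠ b` in the first, `c ≠ e` in the second,
`o a b + o c e` is positive and divisible by `L`, so at least `L`. So either `o ≥ L / 2` for all the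
pairs of the first class, or `o > L / 2` for all the pairs of the second class; in both cases
`∑ o ≥ (N / 2) (N / 2 - 1) L / 2 = L #{close pairs} / 4`. -/
def S_quad : Prop :=
  ∀ (J : Type) [Fintype J] [DecidableEq J] (o : J → J → ℤ) (_ : ∀ l m, o l m = o m l)
    (_ : ∀ l m, l ≠ m → 0 ≤ o l m)
    (_ : ∀ l m n, l ≠ m → m ≠ n → l ≠ n → min (o l m) (o m n) ≤ o l n) (L : ℕ) (_ : 1 ≤ L)
    (_ : ∀ a b c e : J, a ≠ b → a ≠ c → a ≠ e → b ≠ c → b ≠ e → c ≠ e →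
      (L : ℤ) ∣ o a b + o c e - o a c - o b e)
    (_ : ∀ l, 2 * cnt o 1 l ≤ Fintype.card J) (_ : 4 ≤ Fintype.card J),
    (L : ℤ) * ((univ.filter fun x : J × J => x.1 ≠ x.2 ∧ 1 ≤ o x.1 x.2).card : ℤ) ≤
      16 * ∑ l, ∑ m ∈ univ.erase l, o l m

end Pool.Agent.Q41.SP
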