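import Pool.Agent.Q41.SP.Defs2

/-!
# Statements, part 3: nondegeneracy

Throughout `E` is a field of characteristic `l`, `q = l ^ r`, `O = PowerSeries E`.
-/

namespace Pool.Agent.Q41.SP

open Finset Polynomial
open Pool.Agent.Q41.SU

universe u

/-- (N1) **Reduction of the degree.** Proof. Let `W = Y - X ^ Q` and write
`G = ∑_{j ≤ β} A_j(X) W ^ j` with `A_j` in `O[X]`, `deg A_j ≤ H + Q β` (substitute `Y = W + X ^ Q`). Some
`red A_j ≠ 0`. If `red A_j = 0` for all `j < β` then `red G = a W ^ β` with `a = red A_β`, the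
coefficient of `Y ^ β` in `red G`. Otherwise let `j₀ < β` be minimal with `red A_{j₀} ≠ 0`. If
`M ≤ j₀` take `G' = W ^ j₀`. If `m = M - j₀ ≥ 1` consider the polynomials `W ^ i G`, `0 ≤ i < m`: the
coefficient of `W ^ (j₀ + j)` in `W ^ i G`, `0 ≤ j < m`, is `T_{ji} = A_{j₀ + j - i}` (zero if the index is
not between `0` and `β`); modulo `δ` the matrix `T` is lower triangular with diagonal entries
`red A_{j₀}`, so `Δ = det T` has `red Δ = (red A_{j₀}) ^ m ≠ 0`. By Cramer there are `c_i` in `O[X]`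
(entries of the adjugate matrix) with `∑_i T_{ji} c_i = Δ` for `j = 0` and `0` for `0 < j < m`. So
`∑ c_i W ^ i G = G' + W ^ M (…)` with `G' = Δ W ^ j₀ + ∑_{j < j₀} B_j W ^ j`. If `y - x ^ Q` is divisible
by `δ` then `W ^ M` is divisible by `δ ^ M` at `(x, y)`. The degree of `G'` in `Y` is
`j₀ ≤ β - 1`, in `X` at most `m (H + Q β) + Q β`. -/
def S_wpP : Prop :=
  ∀ (E : Type u) [Field E] (β H Q M : ℕ) (G : (PowerSeries E)[X][X]), Dg β H G → red G ≠ 0 →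
    (∃ a : E[X], a ≠ 0 ∧ a.natDegree ≤ H ∧ red G = C a * (X - C (X ^ Q)) ^ β) ∨
    (1 ≤ β ∧ ∃ G' : (PowerSeries E)[X][X], Dg (β - 1) ((M + 1) * (H + Q * β)) G' ∧ red G' ≠ 0 ∧
      ∀ (x : E) (y : PowerSeries E), PowerSeries.X ∣ y - PowerSeries.C (x ^ Q) →
        Va M G x y → Va M G' x y)

/-- (N2) **Pigeonhole.** Proof. Let `T` be a natural number with `(T + 1) ε ≥ 2`, `J = m₀ T`, and
`n ≥ 2 m₀ T`. The translated sets `W - a m₀`, `0 ≤ a ≤ T`, are subsets of `[-m₀ T, n)` and have together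
at least `(T + 1) ε n ≥ 2 n` elements; if `c(x)` is the number of these sets which contain `x`, the sum of
`c(x) - 1` over the `x` with `c(x) ≥ 1` is at least `2 n - (n + m₀ T) ≥ n / 2`, so the sum of the
cardinalities of the pairwise intersections is at least `n / 2`, and one of them, for `a < b`, is at least
`n / (2 (T + 1) ^ 2)`; put `m = (b - a) m₀`. -/
def S_pigP : Prop :=
  ∀ (m₀ : ℕ) (ε : ℝ), 1 ≤ m₀ → 0 < ε → ∃ (J : ℕ) (ε' : ℝ) (N₀ : ℕ), 0 < ε' ∧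
    ∀ n ≥ N₀, ∀ W ⊆ range n, ε * n ≤ (W.card : ℝ) → ∃ m, 1 ≤ m ∧ m ≤ J ∧ m₀ ∣ m ∧
      ε' * n ≤ ((W.filter fun i => i + m ∈ W).card : ℝ)

/-- (N3) **Iterates.** As `S_it` (`Q41/SU/Stm5.lean`, proof `Q144/SU/It.lean`), but the degree of the
rational function is the maximum of the two degrees. Second clause: along a segment of an orbit the
iterates have no pole. Proof as there: induction on `n`; coprimality: if a prime `π` divides
`hcm d p u v` and `hcm d q u v` with `u`, `v` coprime, then if `π` does not divide `v`, `u / v` would be a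
common root of `p`, `q` in `E[X] / π`, and if `π` divides `v` then it does not divide `u` and the
coefficients of degree `d` of `p` and `q` are both zero. Degrees: the coefficients of degree
`d ^ (n + 1)` of the two new polynomials are the values of the forms of `p`, `q` at the vector of the
coefficients of degree `d ^ n` of `u`, `v`. -/
def S_itP : Prop :=
  ∀ (E : Type u) [Field E] (d : ℕ) (p q : E[X]), 1 ≤ d → RM d p q → ∀ n : ℕ,
    RM (d ^ n) (itr d p q n).1 (itr d p q n).2 ∧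
    (∀ (N : ℕ) (x : ℕ → E), Seg p q N x → ∀ i, i + n < N → (itr d p q n).2.eval (x i) ≠ 0 ∧
      x (i + n) = (itr d p q n).1.eval (x i) / (itr d p q n).2.eval (x i)) ∧
    (∀ m, rf (itr d p q (n + m)).1 (itr d p q (n + m)).2 =
      aeval (rf (itr d p q n).1 (itr d p q n).2) (itr d p q m).1 /
        aeval (rf (itr d p q n).1 (itr d p q n).2) (itr d p q m).2)

/-- (N4) **Inseparable degree.** Proof. First: `wr p q = 0` with `p`, `q` coprime implies
`q ∣ derivative q`, so `derivative q = 0`, `derivative p = 0`, and `p`, `q` are polynomials in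
`X ^ l`; induction on the degree. Second: chain rule, a composition of two rational functions with
derivative not zero has derivative not zero (the derivative of `g ∘ f` is `(g' ∘ f) f'`, and `f` is not
constant). Third: `f = g(X ^ (l ^ e))` with `e ≥ 1`; by induction the `n`-th iterate is a rational function
of `X ^ (l ^ n)` (if `p`, `q` are polynomials in `X ^ l` then `l ∣ d` and
`hcm d p u v = ∑ p_i u ^ i v ^ (d - i)` with all `i`, `d - i` divisible by `l`), and if it is also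
`p₁ / q₁ (X ^ (l ^ s))` with `s < n` then `p₁`, `q₁` are polynomials in `X ^ l` and `wr p₁ q₁ = 0`. -/
def S_insP : Prop :=
  ∀ (l : ℕ) (E : Type u) [Field E] [Fact l.Prime] [CharP E l] (d : ℕ) (p q : E[X]), 1 ≤ d →
    RM d p q →
    (∃ (s : ℕ) (p₁ q₁ : E[X]), l ^ s ≤ d ∧ p = expand E (l ^ s) p₁ ∧ q = expand E (l ^ s) q₁ ∧
      wr p₁ q₁ ≠ 0) ∧
    (wr p q ≠ 0 → ∀ n, wr (itr d p q n).1 (itr d p q n).2 ≠ 0) ∧
    (wr p q = 0 → ∀ (n s : ℕ) (p₁ q₁ : E[X]), (itr d p q n).1 = expand E (l ^ s) p₁ →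
      (itr d p q n).2 = expand E (l ^ s) q₁ → wr p₁ q₁ ≠ 0 → n ≤ s)

/-- (N5) **Forward invariance.** `M = M' + l ^ s (M₁ + 1)`. Let `S = l ^ s`, `σ = tw l r τ`. Proof. Let
`N = nv …`, of degree at most `β D₀` in `V` and `H D₀` in `X`. The polynomial `G'' = frP S G` has
degree exactly `β` in `V`, its leading coefficient is `(G.coeff β) ^ S`, whose reduction `a ^ S` is not
zero. Pseudo-division in the variable `V`: there are `A` (a power of `(G.coeff β) ^ S`), `Qt`, `Rm`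
with `A N = Qt G'' + Rm`, `deg_V Rm < β` (and degrees in `X` bounded in terms of `β`, `H`, `D₀`, `S`).
For `x` with `Q(x) ≠ 0` put `x' = P(x) / Q(x)`, `V = σ(x) ^ S`. One has
`σ(x') = P^σ(σ x) / Q^σ(σ x) = (P₁.map σ)(V) / (Q₁.map σ)(V)`, with denominator a unit of `O`, so
`N(x, V) = Q(x) ^ H (Q₁.map σ)(V) ^ β G(x', σ x')` and `G''(x, V) = G(x, σ x) ^ S` (`O` has
characteristic `l`). So if `x`, `x'` satisfy the relation modulo `δ ^ M`, then `Rm(x, V) = 0` modulo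
`δ ^ M`. If `Rm` is divisible by `δ ^ M'` the first alternative holds. Otherwise let `v < M'` be the
exact power of `δ` dividing `Rm`, `v = c + S v'`, `0 ≤ c < S`, and let
`Rm_c` be obtained from `Rm` by replacing each coefficient `∑ f_n δ ^ n` by `∑ f_{c + S n} δ ^ n`. As
`V = ∑ D_j(x) ^ (q S) δ ^ (S j)` is `tw l (r + s) τ x` with `δ` replaced by `δ ^ S`, comparing the
exponents congruent to `c` modulo `S` in `Rm(x, V) = 0` mod `δ ^ M` gives
`Rm_c(x, tw l (r + s) τ x) = 0` modulo `δ ^ ((M - c) / S)`. Finally `Rm_c = δ ^ v' G'` with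
`red G' ≠ 0` (`Rm_c` is divisible by `δ ^ v'` since `Rm` is divisible by `δ ^ v`). -/
def S_fwdP : Prop :=
  ∀ (l D₀ β s M₁ M' : ℕ), l.Prime → ∃ M : ℕ, ∀ r H : ℕ, ∃ H' : ℕ,
    ∀ (k E : Type u) [Field k] [Field E] [Algebra k E] [Fact l.Prime] [CharP E l]
    (τ : E →ₐ[k] PowerSeries E) (D : Derivation k E E), IsHT l τ D →
    ∀ (P Q P₁ Q₁ : E[X]), RM D₀ P Q → P = expand E (l ^ s) P₁ → Q = expand E (l ^ s) Q₁ →
    ∀ (G : (PowerSeries E)[X][X]) (a : E[X]), Dg β H G → a ≠ 0 →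
    red G = C a * (X - C (X ^ l ^ r)) ^ β →
    (∃ (A : (PowerSeries E)[X]) (Qt : (PowerSeries E)[X][X]),
      A.map PowerSeries.constantCoeff ≠ 0 ∧
      Dv M' (C A * nv β H P Q (P₁.map (tw l r τ)) (Q₁.map (tw l r τ)) G -
        Qt * frP (l ^ s) G)) ∨
    (1 ≤ β ∧ ∃ G' : (PowerSeries E)[X][X], Dg (β - 1) H' G' ∧ red G' ≠ 0 ∧
      ∀ x : E, Q.eval x ≠ 0 → Va M G x (tw l r τ x) →
        Va M G (P.eval x / Q.eval x) (tw l r τ (P.eval x / Q.eval x)) →
        Va M₁ G' x (tw l (r + s) τ x))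

/-- (N6) **Purity for inseparable maps.** `S = l ^ s`, `β = l ^ t β₀`. Proof. Work over the ring
`B = 𝔽[[δ]] / δ ^ S`, `𝔽 = RatFunc E`. As `O[X]` has characteristic `l`,
`G.coeff j ^ S` is congruent modulo `δ ^ S` to the `S`-th power of its reduction, and
`red G = a (Y - X ^ q) ^ β` gives `frP S G = a ^ S (V - X ^ (q S)) ^ β` modulo `δ ^ S`. The reduction of
`A` is not zero, so `A` is a unit in `B`, and `N = nv …` is divisible by `(V - V₀) ^ β`,
`V₀ = X ^ (q S)`, in `B[V]`. Let `P' = P₁.map σ`, `Q' = Q₁.map σ`. `Q'(V₀)` is a unit of `B` (its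
reduction is `Q₁^{(q)}(X ^ (q S)) = Q(X) ^ q`), `W₀ = P'(V₀) / Q'(V₀)`, and
`P'(V) - W₀ Q'(V) = (V - V₀) U(V)` with `U(V₀)` a unit of `B` (its reduction is the value of
`(P₁' Q₁ - P₁ Q₁')^{(q)}` at `X ^ (q S)` divided by `Q(X) ^ q`). Let `F = P / Q` (in `𝔽`) and let
`G(F, W) = ∑ g_j (W - W₀) ^ j`, `0 ≤ j ≤ β`, be the polynomial over `B` obtained by substituting `F` for
`X`. Then `N(V) = Q ^ H ∑ g_j ((V - V₀) U(V)) ^ j Q'(V) ^ (β - j)`, and dividing successively by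
`V - V₀` one finds `g_0 = 0`, `g_1 = 0`, …, `g_{β-1} = 0`. So
`G(F, W) = g_β (W - W₀) ^ β = g_β (W ^ (l ^ t) - W₀ ^ (l ^ t)) ^ β₀` in `B[W]`, hence the
polynomial obtained from `pp l t β₀ G` by substituting `F` for `X` is zero over `B`. The substitution
`X ↦ F` is injective on `E[X]` (`F` is not constant because `wr P₁ Q₁ ≠ 0`), so every coefficient of
`pp l t β₀ G` is divisible by `δ ^ S`. -/
def S_ppiP : Prop :=
  ∀ (l r s t β₀ H M' : ℕ) (E : Type u) [Field E] [Fact l.Prime] [CharP E l]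
    (σ : E →+* PowerSeries E) (_ : ∀ x, PowerSeries.constantCoeff (σ x) = x ^ l ^ r)
    (P Q P₁ Q₁ : E[X]) (_ : IsCoprime P Q) (_ : P = expand E (l ^ s) P₁)
    (_ : Q = expand E (l ^ s) Q₁) (_ : wr P₁ Q₁ ≠ 0) (G Qt : (PowerSeries E)[X][X]) (a : E[X])
    (A : (PowerSeries E)[X]) (_ : ¬ l ∣ β₀) (_ : 1 ≤ β₀) (_ : Dg (l ^ t * β₀) H G) (_ : a ≠ 0)
    (_ : red G = C a * (X - C (X ^ l ^ r)) ^ (l ^ t * β₀))
    (_ : A.map PowerSeries.constantCoeff ≠ 0) (_ : l ^ s ≤ M')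
    (_ : Dv M' (C A * nv (l ^ t * β₀) H P Q (P₁.map σ) (Q₁.map σ) G - Qt * frP (l ^ s) G)),
    Dv (l ^ s) (pp l t β₀ G)

/-- (N7) **The derivative.** `β = l ^ t β₀ < M`. Proof. Let `g = G.coeff β`, `h = G.coeff (β - l ^ t)`,
`y = tw l r τ x`, `a(x) ≠ 0`. As `pp l t β₀ G` and `G(x, y)` are divisible by `δ ^ M`, so is
`g(x) w ^ β₀`, `w = β₀ g(x) y ^ (l ^ t) + h(x)` in `O`. The constant coefficient of `g(x)` is
`a(x) ≠ 0`, so `δ ^ M ∣ w ^ β₀`, the order of `w` is at least `M / β₀ > l ^ t`, and the coefficient of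
`δ ^ (l ^ t)` in `w` is zero. Since `y = ∑ D_n(x) ^ q δ ^ n`,
`y ^ (l ^ t) = x ^ (q l ^ t) + D(x) ^ (q l ^ t) δ ^ (l ^ t) + …`. So
`β₀ (a(x) D(x) ^ (q l ^ t) + g_c(x) x ^ (q l ^ t)) + h_c(x) = 0`, where `g_c`, `h_c` in `E[X]` are the
coefficients of `δ ^ c`, `c = l ^ t`, in `g`, `h`. Take `ρ₂ = β₀ a`,
`ρ₁ = -(β₀ g_c X ^ (q l ^ t) + h_c)`. -/
def S_derP : Prop :=
  ∀ (l r t β₀ H M : ℕ) (k E : Type u) [Field k] [Field E] [Algebra k E] [Fact l.Prime]
    [CharP E l] (τ : E →ₐ[k] PowerSeries E) (D : Derivation k E E), IsHT l τ D → ¬ l ∣ β₀ →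
    1 ≤ β₀ → l ^ t * β₀ < M → ∀ (G : (PowerSeries E)[X][X]) (a : E[X]), Dg (l ^ t * β₀) H G →
    a ≠ 0 → red G = C a * (X - C (X ^ l ^ r)) ^ (l ^ t * β₀) → Dv M (pp l t β₀ G) →
    ∃ ρ₁ ρ₂ : E[X], ρ₂ ≠ 0 ∧ ρ₁.natDegree ≤ H + l ^ (r + t) ∧ ρ₂.natDegree ≤ H + l ^ (r + t) ∧
      ∀ x : E, ρ₂.eval x ≠ 0 → Va M G x (tw l r τ x) →
        ρ₂.eval x * D x ^ l ^ (r + t) = ρ₁.eval x

/-- (N8) **Descent by differentiation.** Proof by induction on `R`; `R = 0` is clear. Let `R ≥ 1`.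
Dividing by the greatest common divisor (which does not vanish on `T`) and by the leading coefficient of
`ρ₂` one may assume that `ρ₁`, `ρ₂` are coprime and `ρ₂` monic. Apply `D` to
`ρ₂(x) u = ρ₁(x)`, `u = D(x) ^ (l ^ R)`, `D(u) = 0`, with
`D(ρ(x)) = ρ^D(x) + ρ'(x) D(x)` (`ρ^D = cD D ρ`), and multiply by `ρ₂(x)`:
`(ρ₁ ρ₂' - ρ₁' ρ₂)(x) D(x) = (ρ₁^D ρ₂ - ρ₁ ρ₂^D)(x)`. If `ρ₁ ρ₂' - ρ₁' ρ₂ ≠ 0` we are done. Otherwise
the right side vanishes on `T`, so it is zero, since its degree is at most `2 H`. So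
`ρ₂ ∣ ρ₂'`, `ρ₂ ∣ ρ₂^D` with `deg ρ₂^D < deg ρ₂` (`ρ₂` is monic), hence
`ρ₂' = 0 = ρ₂^D`, and then `ρ₁' = 0 = ρ₁^D`: `ρ₁`, `ρ₂` are polynomials in `X ^ l` with coefficients in
the kernel of `D`, that is `l`-th powers. So `ρ_i = η_i ^ l` with `η_i` in `E[X]`, and
`η₂(x) D(x) ^ (l ^ (R - 1)) = η₁(x)` on `T` (injectivity of Frobenius); apply the induction
hypothesis. -/
def S_dscP : Prop :=
  ∀ (l H R : ℕ) (k E : Type u) [Field k] [Field E] [Algebra k E] [Fact l.Prime]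
    [CharP E l] (τ : E →ₐ[k] PowerSeries E) (D : Derivation k E E), IsHT l τ D →
    ∀ (ρ₁ ρ₂ : E[X]) (T : Finset E), ρ₁.natDegree ≤ H → ρ₂.natDegree ≤ H → 2 * H < T.card →
    (∀ x ∈ T, ρ₂.eval x ≠ 0 ∧ ρ₂.eval x * D x ^ l ^ R = ρ₁.eval x) →
    ∃ r₁ r₂ : E[X], r₂ ≠ 0 ∧ r₁.natDegree ≤ 2 * H ∧ r₂.natDegree ≤ 2 * H ∧
      ∀ x ∈ T, r₂.eval x * D x = r₁.eval x

/-- (N9) **Riccati**, any characteristic: `S_ric` of `Q41/SU/Stm5.lean` without the hypothesis that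
the characteristic is zero (proof in `Q153/SU/Ric.lean`, which should work without it). -/
def S_ricP : Prop :=
  ∀ (k E : Type u) [Field k] [Field E] [Algebra k E] (D : Derivation k E E)
    (p q : E[X]), IsCoprime p q → q ≠ 0 → 2 ≤ max p.natDegree q.natDegree →
    ∀ R₁ R₂ : E[X], R₂ ≠ 0 → Ric D p q R₁ R₂ →
    ∃ α β γ : E, R₁ = (C α * X ^ 2 + C β * X + C γ) * R₂

/-- (N10) **Quadratic relations.** Proof. By (N2) with `m₀ = 1` there is `1 ≤ m ≤ J` such that at least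
`ε' n` indices `i` satisfy `i, i + m ∈ W`. Let `P / Q` be the `m`-th iterate (N3), of degree
`d ^ m ≤ d ^ J`. For these `i`, with `x = x i`, `x' = x (i + m) = P(x) / Q(x)`:
`D(x') = (vd(x) + wr(x) D(x)) / Q(x) ^ 2` (`vd = vd D P Q`, `wr = wr P Q`), so, multiplying
`r₂(x') D(x') = r₁(x')` by `r₂(x) Q(x) ^ (H + 2)`, a polynomial in `x` of degree bounded in terms of
`H`, `d ^ J` vanishes at these points. Hence it is zero if `n` is large, and this is
`Ric D P Q r₁ r₂`. By (N9) `r₁ = (α X ^ 2 + β X + γ) r₂`. (`S_pigP`, `S_itP`, `S_ricP` may be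
assumed.) -/
def S_ric2P : Prop :=
  ∀ (d : ℕ) (ε : ℝ) (H : ℕ), 2 ≤ d → 0 < ε → ∃ N₀ : ℕ,
    ∀ (k E : Type u) [Field k] [Field E] [Algebra k E] (D : Derivation k E E) (p q : E[X]),
    RM d p q → ∀ (n : ℕ) (x : ℕ → E), Seg p q n x → N₀ ≤ n → ∀ W ⊆ range n,
    ε * n ≤ (W.card : ℝ) → ∀ r₁ r₂ : E[X], r₂ ≠ 0 → r₁.natDegree ≤ H → r₂.natDegree ≤ H →
    (∀ i ∈ W, r₂.eval (x i) * D (x i) = r₁.eval (x i)) →
    ∃ α β γ : E, ∀ i ∈ W, r₂.eval (x i) ≠ 0 → D (x i) = α * x i ^ 2 + β * x i + γ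

/-- (N20) **Nondegeneracy.** Proof by induction on `β`. If `β = 0` take `M = 1`, `ε₁ = 1`: the
coefficient `G.coeff 0` has reduction `g ≠ 0` of degree at most `H`, and `g(x_i) = 0` for `i` in `W`, so
`ε n ≤ |W| ≤ H`, impossible for large `n`. Let `β ≥ 1`, `β = l ^ t β₀` with `l` prime to `β₀`; let `m₀`
be such that `l ^ m₀ > β`; let `J`, `ε'` be from (N2) for `m₀`, `ε`. For the finitely many degrees
`D₀ = d ^ m`, `m ≤ J`, and `s` with `l ^ s ≤ D₀` let `M₁` be the bound of the induction hypothesis for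
`min (ε, ε')` (and `d`), `κ` from (N19) for `D₀`, `M' = κ (β + 1) + l ^ s`, and `M` at least the bound of
(N5) for all these `D₀`, `s`, also `M ≥ M₁`, `M ≥ β + 1`. Given `G`, `W`: (a) (N1) with this `M`,
`Q = l ^ r`: if the second alternative holds, apply the induction hypothesis to `G'` and `W` (its `M` may
be larger than required; the constant coefficient of `tw l r τ x` is `x ^ q`). (b) Otherwise
`red G = a (Y - X ^ q) ^ β`. Let `m` be from (N2), `P / Q` the `m`-th iterate, of degree `D₀ = d ^ m`,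
`s`, `P₁`, `Q₁` from (N4). (N5): if the second alternative holds, apply the induction hypothesis to
`G'`, the level `r + s` and `{i | i, i + m ∈ W}`, a subset of `W`. (c) Otherwise one has the identity of
(N5). If `p / q` is inseparable (`wr p q = 0`) then `s ≥ m ≥ m₀` by (N4) and (N6) gives
`Dv (l ^ s) (pp …)`, `l ^ s > β`. If it is separable then `wr P Q ≠ 0`, so `s = 0` (otherwise `P`, `Q`
are polynomials in `X ^ l`), `P₁ = P`, and (N19) gives `Dv (M' / κ) (pp …)`, `M' / κ ≥ β + 1`. In both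
cases `Dv (β + 1) (pp …)`. (d) (N7) with `β + 1` in place of `M`:
`ρ₂(x_i) D(x_i) ^ (l ^ (r + t)) = ρ₁(x_i)` for the `i` in `W` with `ρ₂(x_i) ≠ 0`, at least `(ε / 2) n`
indices; (N8) for this set of points gives `r₁`, `r₂` of bounded degrees; (N10) gives the quadratic
relation for those of these `i` with `r₂(x_i) ≠ 0`, at least `(ε / 4) n`. -/
def S_ndP : Prop :=
  ∀ (l d β : ℕ) (ε : ℝ), l.Prime → 2 ≤ d → 0 < ε → ∃ (ε₁ : ℝ) (M : ℕ), 0 < ε₁ ∧
    ∀ r H : ℕ, ∃ N₀ : ℕ,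
    ∀ (k E : Type u) [Field k] [Field E] [Algebra k E] [Fact l.Prime] [CharP E l]
    (τ : E →ₐ[k] PowerSeries E) (D : Derivation k E E), IsHT l τ D → ∀ p q : E[X], RM d p q →
    ∀ (n : ℕ) (x : ℕ → E), Seg p q n x → N₀ ≤ n → ∀ W ⊆ range n, ε * n ≤ (W.card : ℝ) →
    ∀ G : (PowerSeries E)[X][X], Dg β H G → red G ≠ 0 →
    (∀ i ∈ W, Va M G (x i) (tw l r τ (x i))) →
    ∃ α β' γ : E, ∃ W' ⊆ W, ε₁ * n ≤ (W'.card : ℝ) ∧
      ∀ i ∈ W', D (x i) = α * x i ^ 2 + β' * x i + γ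

end Pool.Agent.Q41.SP
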