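import Pool.Agent.Q41.SP.Defs2

/-!
# Statements, part 4: purity for separable maps

`L` is an algebraically closed field of characteristic `l`, `q = l ^ r`. The polynomials `P'`, `Q'`
over `PowerSeries L` are lifts of the polynomials `P`, `Q` with coefficients raised to the power `q`.
-/

namespace Pool.Agent.Q41.SP

open Finset Polynomial
open Pool.Agent.Q41.SU

universe u

/-- (N11) **Power series in an algebraically closed ultrametric field.** Proof. Let `𝔽` be a complete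
ultrametric field with a ring homomorphism `PowerSeries L → 𝔽` such that the norm of the image of a
power series of order `n` is `exp (-n)`: for instance the completion of `RatFunc L` for the absolute
value `exp (-ord)` at `0` (as in `S_amb` of `Q41/SU/Stm1.lean`, proof in `Q198/SU/Amb.lean`), where
`∑ a_n δ ^ n` is sent to the sum of the convergent series, or `LaurentSeries L` with its valuation.
Let `Λ` be the algebraic closure of `𝔽` with the spectral norm. -/
def S_psP : Prop :=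
  ∀ (L : Type u) [Field L], ∃ (Λ : Type u) (_ : NormedField Λ) (_ : IsUltrametricDist Λ)
    (_ : IsAlgClosed Λ) (ψ : PowerSeries L →+* Λ), IsPs ψ

/-- (N12) **Cycles of prime length.** `L` is algebraically closed of characteristic `l`; `p / q` has
degree `D₀ ≥ 2` and may be inseparable. Proof. For a prime `ℓ ≠ l` change the coordinate by a Moebius map
over `L` such that `∞` is not fixed by the `ℓ`-th iterate (`L` is infinite; a map of degree
`D₀ ^ ℓ ≥ 2` has only finitely many fixed points). Then, with `P_n / Q_n` the iterates,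
`Φ_ℓ = P_ℓ - X Q_ℓ` and `Φ_1 = P_1 - X Q_1` have degrees `D₀ ^ ℓ + 1`, `D₀ + 1` (`P_n / Q_n` is finite or
has a value different from `∞` at `∞`, so `deg Q_n = D₀ ^ n`). Let `z` be a root of `Φ_1`, that is a fixed
point of `f = P_1 / Q_1`, with multiplier `λ = f'(z)`; its multiplicity as a root of `Φ_n` is the order of
vanishing of `f^n(X) - X` at `z` (as `Q_n(z) ≠ 0`). If `λ ^ ℓ ≠ 1`, the multiplicities for `1` and `ℓ`
are both `1`. If `λ = 1`, `f = z + u + a u ^ k + …`, `a ≠ 0`, `k ≥ 2`, `u = X - z`, then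
`f^ℓ = z + u + ℓ a u ^ k + …` and `ℓ ≠ 0` in `L`, so the multiplicities are both `k`. So if no multiplier
`λ ≠ 1` of a fixed point of `f` satisfies `λ ^ ℓ = 1`, the roots of `Φ_1` account for only
`D₀ + 1 < D₀ ^ ℓ + 1` of the roots of `Φ_ℓ`, and there is a point `z` with `f^ℓ(z) = z ≠ f(z)`. The
excluded primes: for each of the at most `D₀ + 1` fixed points at most one prime `ℓ` (the order of
`λ`); and at most one prime `ℓ` for which the point `∞` of the original coordinate has exact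
period `ℓ` (for the other primes the cycle does not contain `∞`). -/
def S_prcP : Prop :=
  ∀ (l D₀ : ℕ) (L : Type u) [Field L] [IsAlgClosed L] [Fact l.Prime] [CharP L l] (P Q : L[X]),
    RM D₀ P Q → 2 ≤ D₀ → ∃ bad : Finset ℕ, bad.card ≤ D₀ + 3 ∧ ∀ ℓ : ℕ, ℓ.Prime → ℓ ≠ l →
    ℓ ∉ bad → ∃ y : ℕ → L, (∀ i, Q.eval (y i) ≠ 0 ∧ y (i + 1) = P.eval (y i) / Q.eval (y i)) ∧
      y ℓ = y 0 ∧ y 1 ≠ y 0

/-- (N13) **Good cycles of bounded length with an infinite unramified backward orbit.** Proof. Let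
`Cr` be the set of the critical points (the roots of `wr P Q`, at most `2 D₀`) and poles (roots of
`Q`, at most `D₀`), together at most `3 D₀` points. Take `4 D₀ + 10` different primes
`ℓ > 8 D₀ + 8`, `ℓ ≠ l`; for those not in `bad` of (N12) one has cycles of exact length `ℓ`, which are
disjoint for different `ℓ`; there are more than `3 D₀` of them, so one cycle `Z`, of length `ℓ`,
contains no point of `Cr`. Every `y` in `Z` has a preimage outside `Z`: the polynomial
`P - y Q` has `D₀ ≥ 2` roots with multiplicity (in `P^1`), the preimage in `Z` is a simple root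
because it is not critical, so there is a different root `y'` or the point `∞` is a preimage of `y`
(the latter for at most one `y`). The roots `y'` for different `y` are different and not periodic (a
periodic point which is mapped to `Z` is in `Z`). For a nonperiodic point `y'` the sets of
the `n`-th preimages of `y'`, `n ≥ 0`, are disjoint, and the trees of preimages of the different `y'`
are disjoint. As `ℓ > 3 D₀ + 1`, there is `y` in `Z` such that the preimage tree of `y'` in `P^1(L)`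
contains no point of `Cr` and does not contain `∞`. Then every point of the tree has exactly `D₀`
preimages (all finite), and the tree `T` is infinite. Number the cycle so that `y 0 = y`. (If the
degree of `Q` is less than that of `P` then `∞` is fixed; it is not a problem: `∞` is not in the
tree.) (`S_prcP` may be assumed.) -/
def S_cycP : Prop :=
  ∀ (l D₀ : ℕ), l.Prime → 2 ≤ D₀ → ∃ ℓ₀ : ℕ, ∀ (L : Type u) [Field L] [IsAlgClosed L]
    [Fact l.Prime] [CharP L l] (P Q : L[X]), RM D₀ P Q → wr P Q ≠ 0 →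
    ∃ (ℓ : ℕ) (y : ℕ → L) (T : Set L), 1 ≤ ℓ ∧ ℓ ≤ ℓ₀ ∧
      (∀ i, Q.eval (y i) ≠ 0 ∧ y (i + 1) = P.eval (y i) / Q.eval (y i)) ∧ y ℓ = y 0 ∧
      T.Infinite ∧ ∀ z ∈ T, ∃ (n : ℕ) (v : ℕ → L), v 0 = z ∧ v n = y 0 ∧
        ∀ i < n, Q.eval (v i) ≠ 0 ∧ (wr P Q).eval (v i) ≠ 0 ∧
          v (i + 1) = P.eval (v i) / Q.eval (v i)

/-- (N14) **Roots of local models.** Proof. Let `b = red` of the leading coefficient `H'.coeff β`
(a polynomial in `X`, `b(y) ≠ 0`). If `M ≥ 1`, `Dv M` gives `b * red G = a * red H'` (with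
`a` the reduction of `G.coeff β`), so `red H' = b (Y - X ^ q) ^ β` (`a ≠ 0`). So the coefficients of
`gt ψ H' y` have norms at most `1`, the leading one has norm `1`, and modulo elements of norm less
than `1` the polynomial is `ψ(b(y)) (Y - ψ(y) ^ q) ^ β`. It splits, and at a root `w` one has
`‖w‖ ≤ 1` and `‖w - ψ(y) ^ q‖ ^ β < 1`. (The case `β = 0` is trivial.) -/
def S_lmrP : Prop :=
  ∀ (l r β H M : ℕ) (L Λ : Type u) [Field L] [NormedField Λ] [IsUltrametricDist Λ]
    [IsAlgClosed Λ] (ψ : PowerSeries L →+* Λ), IsPs ψ → 1 ≤ M →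
    ∀ (G H' : (PowerSeries L)[X][X]) (a : L[X]), Dg β H G → a ≠ 0 →
    red G = C a * (X - C (X ^ l ^ r)) ^ β → ∀ y : L, LM β M G H' y →
    ∃ (c : Λ) (w : Fin β → Λ), ‖c‖ = 1 ∧ gt ψ H' y = C c * ∏ j, (X - C (w j)) ∧
      ∀ j, ‖w j - ψ (PowerSeries.C y) ^ l ^ r‖ < 1

/-- (N15) **Local models propagate forward.** Proof. Let `B` be the local ring of `L[X]` at `y`
(a subring of `𝔽 = RatFunc L`), `R = PowerSeries B`, a local ring, `S = PowerSeries 𝔽`. Let
`h = H' / H'.coeff β` in `R[Y]`, monic of degree `β` (the leading coefficient of `H'` is a unit of `R`).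
By `LM`, `G = (G.coeff β) h` modulo `δ ^ M'` in `S[Y]`, and `red h = (Y - X ^ q) ^ β`. Let
`V = R[Y] / (h)` (`AdjoinRoot`), free over `R` with basis `1, Y, …, Y ^ (β - 1)`. `Q'(Y)` is a unit in
`V`: modulo the maximal ideal of `R` one has `V / m V = L[Y] / (Y - y ^ q) ^ β` and `Q'(Y)` becomes
`Q^{(q)}(Y)`, with value `Q(y) ^ q ≠ 0` at `Y = y ^ q`. Let `u = P'(Y) / Q'(Y)` in `V` and let `χ` in
`R[W]` be the characteristic polynomial of the multiplication by `u`; `χ(u) = 0`. Let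
`F = P / Q` in `𝔽` (in `B`, as `Q(y) ≠ 0`), `φ : 𝔽 → 𝔽` the `L`-homomorphism `X ↦ F` (injective as `F` is
not constant), extended to `S` coefficientwise, and `g = (G / G.coeff β)^φ` in `S[W]`, monic of
degree `β`. From the identity `A N = Qt G` modulo `δ ^ M'`: in `V ⊗ S` modulo `δ ^ M'` one has `G = 0`,
so `A N(X, Y) = 0`, `A` is a unit of `S`, `N(X, Y) = Q ^ H Q'(Y) ^ β G(F, u)`, so `g(u) = 0` modulo
`δ ^ M'`. Uniqueness: `χ - g` has degree less than `β` and `(χ - g)(u) = 0` modulo `δ ^ M'`. The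
elements `1, u, …, u ^ (β - 1)` of `V ⊗ S` are linearly independent modulo `δ`: modulo `δ` the module
is `𝔽[Y] / (Y - X ^ q) ^ β`, `u = P^{(q)}(Y) / Q^{(q)}(Y)`, and `u - u₀` (`u₀` the value at
`Y = X ^ q`) is `(Y - X ^ q)` times a unit because the derivative of `P^{(q)} / Q^{(q)}` at `X ^ q` is
`(wr P Q / Q ^ 2) ^ q ≠ 0`; a polynomial of degree less than `β` in `u - u₀` which is divisible by
`(Y - X ^ q) ^ β` is zero. So (dividing by powers of `δ`, the module being free) `χ = g` modulo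
`δ ^ M'`. Hence for `c < M'` the coefficients `φ(ρ)` of `δ ^ c` in the coefficients of `g` are in `B`,
where `ρ` runs over the corresponding coefficients of `G / G.coeff β`, elements of `𝔽`. If `ρ` had a
pole at `F(y)` then `φ(ρ)` would have a pole at `y`. So all these `ρ` are regular at `F(y)`; let `b` in
`L[X]` be a common denominator of them, `b(F(y)) ≠ 0`, and let `H''` be `b` times the truncation
modulo `δ ^ M'` of `G / G.coeff β`, with leading coefficient `b`. -/
def S_regP : Prop :=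
  ∀ (l r β H M' : ℕ) (L : Type u) [Field L] [IsAlgClosed L] [Fact l.Prime] [CharP L l]
    (P Q : L[X]) (P' Q' : (PowerSeries L)[X]) (G Qt : (PowerSeries L)[X][X])
    (A : (PowerSeries L)[X]) (a : L[X]), IsCoprime P Q → wr P Q ≠ 0 →
    P'.map PowerSeries.constantCoeff = P.map (iterateFrobenius L l r) →
    Q'.map PowerSeries.constantCoeff = Q.map (iterateFrobenius L l r) → Dg β H G → a ≠ 0 →
    red G = C a * (X - C (X ^ l ^ r)) ^ β → A.map PowerSeries.constantCoeff ≠ 0 →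
    Dv M' (C A * nv β H P Q P' Q' G - Qt * G) → ∀ y : L, Q.eval y ≠ 0 →
    ∀ H' : (PowerSeries L)[X][X], LM β M' G H' y →
    ∃ H'' : (PowerSeries L)[X][X], LM β M' G H'' (P.eval y / Q.eval y)

/-- (N16) **Roots of a local model are mapped near to roots.** Proof. `M' = 0` is trivial (all norms
are at most `1`). Let `h' = H'.coeff β`, `h'' = H''.coeff β`, `y' = P(y) / Q(y)`, let `H₂` bound the
degrees in `X` of `H''`, and `N'' = nv β H₂ P Q P' Q' H''`. From `h'' G = (G.coeff β) H''` modulo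
`δ ^ M'` by pull-back: `(h'')~ N = (G.coeff β)~ N''` modulo `δ ^ M'` up to powers of `Q(X)`, where `~` is
`hcr … (P.map C) (Q.map C)`. Together with `A N = Qt G` and `h' G = (G.coeff β) H'` one gets
`E₁(X) N''(X, V) = Q₂(X, V) H'(X, V)` modulo `δ ^ M'` with `E₁` in `O[X]`, `red E₁ ≠ 0`, and some `Q₂`.
Divide: `h' ^ e N'' = Q₃ H' + R₃` with `deg_V R₃ < β`. Then `E₁ R₃ = (h' ^ e Q₂ - E₁ Q₃) H'` modulo
`δ ^ M'`; the leading coefficient `h'` of `H'` is not a zero divisor modulo `δ ^ M'`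
(its reduction is not zero), so comparing degrees in `V` both sides vanish modulo `δ ^ M'`, and
`R₃ = 0` modulo `δ ^ M'` as `red E₁ ≠ 0`. So `h' ^ e N'' = Q₃ H'` modulo `δ ^ M'`. Apply `ψ` and evaluate at
`X = y`, `V = w`: `‖N''(y, w)‖ ≤ exp (-M')` since `h'(y)` is a unit. Finally
`N''(y, w) = Q(y) ^ H₂ Q'(w) ^ β (gt ψ H'' y')(P'(w) / Q'(w))`, where `Q(y)` is a nonzero constant, of
norm `1`, and `‖Q'(w)‖ = 1` because `Q'(w)` is congruent to `ψ(Q(y)) ^ q` (`w` is congruent to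
`ψ(y) ^ q`). -/
def S_cloP : Prop :=
  ∀ (l r β H M' : ℕ) (L Λ : Type u) [Field L] [IsAlgClosed L] [Fact l.Prime] [CharP L l]
    [NormedField Λ] [IsUltrametricDist Λ] [IsAlgClosed Λ] (ψ : PowerSeries L →+* Λ)
    (P Q : L[X]) (P' Q' : (PowerSeries L)[X]) (G Qt : (PowerSeries L)[X][X])
    (A : (PowerSeries L)[X]) (a : L[X]), IsPs ψ → IsCoprime P Q → wr P Q ≠ 0 →
    P'.map PowerSeries.constantCoeff = P.map (iterateFrobenius L l r) →
    Q'.map PowerSeries.constantCoeff = Q.map (iterateFrobenius L l r) → Dg β H G → a ≠ 0 →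
    red G = C a * (X - C (X ^ l ^ r)) ^ β → A.map PowerSeries.constantCoeff ≠ 0 →
    Dv M' (C A * nv β H P Q P' Q' G - Qt * G) → ∀ y : L, Q.eval y ≠ 0 →
    ∀ H' H'' : (PowerSeries L)[X][X], LM β M' G H' y → LM β M' G H'' (P.eval y / Q.eval y) →
    ∀ w : Λ, (gt ψ H' y).eval w = 0 → ‖w - ψ (PowerSeries.C y) ^ l ^ r‖ < 1 →
      ‖(gt ψ H'' (P.eval y / Q.eval y)).eval ((P'.map ψ).eval w / (Q'.map ψ).eval w)‖ ≤
        Real.exp (-(M' : ℝ))

/-- (N17) **Closeness at a cycle.** `κ₀ = 2 β D₀ ^ (ℓ (β + β!))`. Here `κ` embeds `L` with norm `1`, `θ` is a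
ring homomorphism with `θ e` congruent to `κ(e) ^ q`, `F^θ` is the rational function `P^θ / Q^θ` on
the residue discs `B_i = {w | ‖w - κ(y_i) ^ q‖ < 1}`. Proof. (1) On `B_i` the denominator `Q^θ` has
norm `1` (it is congruent to `κ(Q(y_i)) ^ q`), `F^θ` maps `B_i` into `B_{i+1}` and does not increase
distances. (2) Let `ε₀ = exp (-M' / β)`. For `w = w_i j` some factor of the product is at most `ε₀`, so
`F^θ(w_i j)` is at distance at most `ε₀` from some `w_{i+1} j'`. So for `Φ = (F^θ)^ℓ` there is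
`π : Fin β → Fin β` with `‖Φ(w_0 j) - w_0 (π j)‖ ≤ ε₀`, and
`‖Φ^n(w_0 j) - w_0 (π^n j)‖ ≤ ε₀`. As `π^(β + β!) = π^β` (after `β` steps one is in a cycle, whose length
divides `β!`), `‖Φ^(β + β!)(w) - Φ^β(w)‖ ≤ ε₀` for `w = w_0 j`. (3) Let `n = ℓ (β + β!)`, `m = ℓ β`,
`Ψ = P_n Q_m - P_m Q_n` in `E[X]` (numerators and denominators of the iterates,
`itr D₀ P Q`), of degree at most `2 D₀ ^ n`, not zero because the `n`-th and the `m`-th iterate have
different degrees. Then `‖Ψ^θ(w)‖ ≤ ε₀`. `x₀ = y_0` is a root of `Ψ`. Let `μ` be the minimal polynomial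
of `x₀` over `E`, `Ψ = μ ^ κ₁ Ψ₁` with `Ψ₁(x₀) ≠ 0`. `Ψ₁^θ(w)` is congruent to
`κ(Ψ₁(x₀)) ^ q`, of norm `1`. So `‖μ^θ(w)‖ ^ κ₁ ≤ ε₀`. (4) `μ = μ₁(X ^ (l ^ j))` with `μ₁` separable
irreducible. `μ₁^θ` has exactly one root `v₀` in the residue disc of `κ(x₀) ^ (q l ^ j)` (two roots, or a
double root, would give `‖(μ₁')^θ‖ < 1` there, but `μ₁'(x₀ ^ (l ^ j)) ≠ 0`), and its other roots are at
distance `1` from this disc or outside the unit disc... (they have norm at most `1` because `μ₁` is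
monic with integral coefficients), so `‖μ^θ(w)‖ = ‖w ^ (l ^ j) - v₀‖`. (5) For two of the roots
`w`, `w'`: `‖w - w'‖ ^ (l ^ j) = ‖w ^ (l ^ j) - w' ^ (l ^ j)‖ ≤ ε₀ ^ (1 / κ₁)`, and
`κ₁ l ^ j ≤ κ₁ deg μ ≤ deg Ψ ≤ 2 D₀ ^ n`. (`S_itP` of `Stm3.lean` may be assumed if useful.) -/
def S_lcyP : Prop :=
  ∀ (l D₀ β ℓ : ℕ), l.Prime → 2 ≤ D₀ → 1 ≤ β → 1 ≤ ℓ → ∃ κ₀ : ℕ, 1 ≤ κ₀ ∧
    ∀ (E L Λ : Type u) [Field E] [Field L] [Algebra E L] [NormedField Λ]
    [IsUltrametricDist Λ] [IsAlgClosed Λ] [Fact l.Prime] [CharP E l] (r M' : ℕ) (κ : L →+* Λ)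
    (θ : E →+* Λ), (∀ a : L, a ≠ 0 → ‖κ a‖ = 1) →
    (∀ e : E, ‖θ e - κ (algebraMap E L e) ^ l ^ r‖ < 1) → ∀ P Q : E[X], RM D₀ P Q →
    ∀ (y : ℕ → L) (w : ℕ → Fin β → Λ),
    (∀ i, aeval (y i) Q ≠ 0 ∧ y (i + 1) = aeval (y i) P / aeval (y i) Q) → y ℓ = y 0 →
    w ℓ = w 0 → (∀ i j, ‖w i j - κ (y i) ^ l ^ r‖ < 1) →
    (∀ i < ℓ, ∀ j, ∏ j', ‖(P.map θ).eval (w i j) / (Q.map θ).eval (w i j) - w (i + 1) j'‖ ≤
      Real.exp (-(M' : ℝ))) →
    ∀ j j', ‖w 0 j - w 0 j'‖ ≤ Real.exp (-((M' : ℝ) / κ₀))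

/-- (N18) **Closeness is transferred backwards.** Proof. `F^θ` is an isometry on the disc
`{w | ‖w - κ(y) ^ q‖ < 1}`: with `F^θ = P^θ / Q^θ`, `Q^θ` of norm `1` there,
`P^θ(w) Q^θ(w') - P^θ(w') Q^θ(w) = (w - w') U(w, w')` where `U` is a polynomial with integral
coefficients and `U(w, w')` is congruent to its value at `w = w' = κ(y) ^ q`, which is congruent to
`κ(wr P Q (y)) ^ q`, of norm `1`. For each `j` there is `j'` with
`‖F^θ(w j) - w' j'‖ ≤ exp (-M' / β) ≤ ρ`, so the `F^θ(w j)` are at mutual distance at most `ρ`. -/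
def S_trfP : Prop :=
  ∀ (l β : ℕ) (E L Λ : Type u) [Field E] [Field L] [Algebra E L] [NormedField Λ]
    [IsUltrametricDist Λ] [Fact l.Prime] [CharP E l] (r M' : ℕ) (κ : L →+* Λ)
    (θ : E →+* Λ) (ρ : ℝ), (∀ a : L, a ≠ 0 → ‖κ a‖ = 1) →
    (∀ e : E, ‖θ e - κ (algebraMap E L e) ^ l ^ r‖ < 1) → ∀ (P Q : E[X]) (y y' : L),
    aeval y Q ≠ 0 → aeval y (wr P Q) ≠ 0 → y' = aeval y P / aeval y Q →
    ∀ w w' : Fin β → Λ, (∀ j, ‖w j - κ y ^ l ^ r‖ < 1) → (∀ j, ‖w' j - κ y' ^ l ^ r‖ < 1) →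
    (∀ j, ∏ j', ‖(P.map θ).eval (w j) / (Q.map θ).eval (w j) - w' j'‖ ≤
      Real.exp (-(M' : ℝ))) → Real.exp (-((M' : ℝ) / β)) ≤ ρ →
    (∀ j j', ‖w' j - w' j'‖ ≤ ρ) → ∀ j j', ‖w j - w j'‖ ≤ ρ

/-- (N19a) **Interpolation.** `β = l ^ t β₀`. Proof. Let `y` be in `T`,
`g = G.coeff β`, `‖ψ(g(y))‖ = 1`. `gt ψ G y = c ∏ (Y - w_j)` with `‖c‖ = 1`, `‖w_j‖ ≤ 1`, and
`‖w_j - w_1‖ ≤ exp (-M)`, so `gt ψ G y` is `c (Y - w_1) ^ β = c (Y ^ (l ^ t) - w_1 ^ (l ^ t)) ^ β₀` up to
coefficients of norm at most `exp (-M)`. Substituting in the definition of `pp` (the coefficient of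
`Y ^ (β - l ^ t)` is `-β₀ c w_1 ^ (l ^ t)` up to norm `exp (-M)`) all the coefficients of
`gt ψ (pp l t β₀ G) y` have norm at most `exp (-M)`, so by `IsPs` for every coefficient `f` in
`(PowerSeries L)[X]` of `pp l t β₀ G` the power series `f(y)` is divisible by `δ ^ M`. For `n < M` the
coefficient of `δ ^ n` in `f` is a polynomial over `L` which vanishes at the infinitely many `y` in
`T`, so it is zero. -/
def S_intP : Prop :=
  ∀ (l t β₀ H M : ℕ) (L Λ : Type u) [Field L] [Fact l.Prime] [CharP L l] [NormedField Λ]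
    [IsUltrametricDist Λ] [IsAlgClosed Λ] (ψ : PowerSeries L →+* Λ), IsPs ψ → 1 ≤ β₀ →
    ∀ (G : (PowerSeries L)[X][X]) (T : Set L), Dg (l ^ t * β₀) H G → T.Infinite →
    (∀ y ∈ T, ((G.coeff (l ^ t * β₀)).map PowerSeries.constantCoeff).eval y ≠ 0 ∧
      ∀ w w' : Λ, (gt ψ G y).eval w = 0 → (gt ψ G y).eval w' = 0 →
        ‖w - w'‖ ≤ Real.exp (-(M : ℝ))) → Dv M (pp l t β₀ G)

/-- (N19) **Purity for separable maps.** Proof. Let `L` be an algebraic closure of `E`, `Λ`, `ψ` from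
(N11); replace `G`, `Qt`, `A`, `a`, `P`, `Q` by their images over `L` (`PowerSeries.map`), and put
`P' = (P.map (tw l r τ)).map (PowerSeries.map (algebraMap E L))`, `Q'` similarly,
`κ = ψ ∘ C`, `θ = ψ ∘ PowerSeries.map (algebraMap E L) ∘ tw l r τ`; `θ e` is congruent to
`κ(e) ^ q` because the constant coefficient of `tw l r τ e` is `e ^ q`. Let `ℓ ≤ ℓ₀`, `y`, `T` be from
(N13), and `κ₀` the maximum (or product) over `ℓ ≤ ℓ₀` of the numbers of (N17), at least `β`. Let `z` be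
in `T` with `a(z) ≠ 0` (all but finitely many). `LM β M' G G z` holds (`H' = G`). By (N15) along the path
from `z` to `y 0` and around the cycle there are local models `H_i` at all the points of the cycle; take
the same model at `y ℓ` and `y 0`. Let `w_i` be the roots, (N14). By (N16) and `‖c‖ = 1` in (N14) the
hypotheses on the products in (N17) hold, so the roots of the model at `y 0` are at mutual distance at
most `ρ = exp (-M' / κ₀)`. For every `z` in `T` with `a(z) ≠ 0` choose local models along the path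
from `z` to `y 0`, with `G` at `z` and the fixed model `H_0` at `y 0`; by (N16), (N18), going back,
the roots of all these models are at mutual distance at most `ρ`; so this holds for the roots of
`gt ψ G z`. (N19a) with `M = M' / κ₀` (natural numbers division) gives `Dv (M' / κ₀) (pp …)` over `L`,
hence over `E`. (If `M' = 0` there is nothing to prove.) -/
def S_ppsP : Prop :=
  ∀ (l D₀ t β₀ : ℕ), l.Prime → 2 ≤ D₀ → 1 ≤ β₀ → ∃ κ : ℕ, 1 ≤ κ ∧
    ∀ (k E : Type u) [Field k] [Field E] [Algebra k E] [Fact l.Prime] [CharP E l]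
    (τ : E →ₐ[k] PowerSeries E) (D : Derivation k E E), IsHT l τ D → ∀ (r H M' : ℕ)
    (P Q : E[X]), RM D₀ P Q → wr P Q ≠ 0 → ∀ (G Qt : (PowerSeries E)[X][X])
    (A : (PowerSeries E)[X]) (a : E[X]), Dg (l ^ t * β₀) H G → a ≠ 0 →
    red G = C a * (X - C (X ^ l ^ r)) ^ (l ^ t * β₀) → A.map PowerSeries.constantCoeff ≠ 0 →
    Dv M' (C A * nv (l ^ t * β₀) H P Q (P.map (tw l r τ)) (Q.map (tw l r τ)) G - Qt * G) →
    Dv (M' / κ) (pp l t β₀ G)

end Pool.Agent.Q41.SP
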