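import Pool.Agent.Q41.SP.Defs3
import Pool.Agent.Q41.SP.Stm3
import Pool.Agent.Q41.SP.Stm4

/-!
# Statements, part 5: sublines, elimination, commuting maps
-/

namespace Pool.Agent.Q41.SP

open Finset Polynomial
open Pool.Agent.Q41.SU

universe u

/-- (V1) **Frames from a quadratic relation.** Proof. If `T` has at most three elements... take three
different points `x_a`, `x_b`, `x_c` of `T` and let
`c(x) = (x - x_a) (x_b - x_c) / ((x - x_c) (x_b - x_a))` for `x ≠ x_c`. The quadratic relation gives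
`D(c(x)) = 0` (the logarithmic derivative of `x - y` is `α (x + y) + β` for two points `x ≠ y` of `T`;
compare `Pool.Agent.W277.UH.cross_of_quad`), so `c(x) = w ^ l`, and `x = μ.app (c(x))` with the inverse
Moebius map `μ`; take `x₀ = x_c`. -/
def S_frmP : Prop :=
  ∀ (l : ℕ) (k E : Type u) [Field k] [Field E] [Algebra k E] [Fact l.Prime] [CharP E l]
    (τ : E →ₐ[k] PowerSeries E) (D : Derivation k E E), IsHT l τ D → ∀ (α β γ : E)
    (T : Finset E), 3 ≤ T.card → (∀ x ∈ T, D x = α * x ^ 2 + β * x + γ) →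
    ∃ (μ : Mb E) (x₀ : E), μ.det ≠ 0 ∧ ∀ x ∈ T, x ≠ x₀ → Sub l 1 μ x

/-- (V2) **Interpolation.** Proof. Let `F' = μ⁻¹ ∘ (P / Q) ∘ μ = P' / Q'`, of degree `d` (`P'`, `Q'` are
`hcm d P A B`, `hcm d Q A B`, `A = μ.α X + μ.β`, `B = μ.γ X + μ.δ`, multiplied by the inverse matrix of
`μ`). For `w` in `T`, with `c = w ^ (l ^ K)`, `c' = w' ^ (l ^ K)`: `P'(c) = c' Q'(c)`, and `Q'(c) ≠ 0` (as
`F'(c) = c'` is finite). The linear system `P''(c) = c' Q''(c)`, `w` in `T`, for the coefficients of two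
polynomials `P''`, `Q''` of degree at most `d` has coefficients in the subfield
`E_K = E ^ (l ^ K)` and the nonzero solution `(P', Q')` over `E`, so it has a nonzero solution
`(P'', Q'')` over `E_K` (for instance expand `P'`, `Q'` in a basis of `E` over `E_K`, or take a coordinate
functional; `Pool.Agent.W277.UH.conj_of_const` does this). Then `P' Q'' - P'' Q'` has degree at most
`2 d` and vanishes at more than `2 d` points, so `P' / Q' = P'' / Q''`; after division of `P''`, `Q''` by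
their greatest common divisor (over `E_K`) one has `RM d P'' Q''`. -/
def S_intpP : Prop :=
  ∀ (l K d : ℕ) (E : Type u) [Field E] [Fact l.Prime] [CharP E l] (P Q : E[X]), RM d P Q →
    ∀ (μ : Mb E) (T : Finset E), μ.det ≠ 0 → 2 * d < T.card →
    (∀ w ∈ T, μ.den (w ^ l ^ K) ≠ 0 ∧ Q.eval (μ.app (w ^ l ^ K)) ≠ 0 ∧
      Sub l K μ (P.eval (μ.app (w ^ l ^ K)) / Q.eval (μ.app (w ^ l ^ K)))) →
    ∃ P₀ Q₀ : E[X], Ov l K d μ P Q P₀ Q₀

/-- (V3) **Descent of orbits.** Proof. Put `z_j ^ (l ^ K) = μ⁻¹(x_j)`. The relation `Ov` says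
`f ∘ μ = μ ∘ f'`, `f' = p' / q'`, `p' = p₀.map (iterateFrobenius E l K)`. With `c_j = z_j ^ (l ^ K)`:
`μ(f'(c_j)) = f(x_j) = x_{j+1} = μ(c_{j+1})`, which is finite, and `c_{j+1}` is finite, so
`q'(c_j) ≠ 0` (otherwise `f'(c_j) = ∞ ≠ c_{j+1}`) and `f'(c_j) = c_{j+1}`. Since
`p'(z ^ (l ^ K)) = p₀(z) ^ (l ^ K)` one gets `q₀(z_j) ≠ 0`, `p₀(z_j) / q₀(z_j) = z_{j+1}`. -/
def S_dnP : Prop :=
  ∀ (l K d : ℕ) (E : Type u) [Field E] [Fact l.Prime] [CharP E l] (p q p₀ q₀ : E[X]) (μ : Mb E),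
    RM d p q → Ov l K d μ p q p₀ q₀ → ∀ (n : ℕ) (x : ℕ → E), Seg p q n x →
    (∀ j < n, Sub l K μ (x j)) → ∃ z : ℕ → E, Seg p₀ q₀ n z ∧
      ∀ j < n, μ.den (z j ^ l ^ K) ≠ 0 ∧ x j = μ.app (z j ^ l ^ K)

/-- (V4) **Descent of relations.** Proof. Let `σ = tw l r τ`, `α' = σ α`, … the images of the entries
of `μ`, and let `G̃(Z, V) = (γ Z + δ) ^ H (γ' V + δ') ^ β G(μ(Z), μ^σ(V))`, a polynomial over `O` of degree
at most `H` in `Z`, `β` in `V`. `red G̃ ≠ 0` because the two substitutions are invertible Moebius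
substitutions over `E` (the entries of `μ`, and their `q`-th powers). For `x = μ.app (z ^ l)`:
`σ(x) = μ^σ(V)`, `V = σ(z) ^ l`, so `G̃(z ^ l, V)` is divisible by `δ ^ M` if `G(x, σ x)` is. As
`V = ∑ D_n(z) ^ (q l) δ ^ (l n)` is `tw l (r + 1) τ z` with `δ` replaced by `δ ^ l`, comparing the
coefficients of the powers of `δ` divisible by `l` gives
`G'(z, tw l (r + 1) τ z) = 0` modulo `δ ^ (M / l)`, where `G'` is obtained from `G̃(Z ^ l, V)` by
replacing each coefficient `∑ f_n δ ^ n` by `∑ f_{l n} δ ^ n`; `red G' = red G̃(Z ^ l, V) ≠ 0`. -/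
def S_rldP : Prop :=
  ∀ (l r β H M : ℕ) (k E : Type u) [Field k] [Field E] [Algebra k E] [Fact l.Prime] [CharP E l]
    (τ : E →ₐ[k] PowerSeries E) (D : Derivation k E E), IsHT l τ D → ∀ (μ : Mb E),
    μ.det ≠ 0 → ∀ G : (PowerSeries E)[X][X], Dg β H G → red G ≠ 0 →
    ∃ G' : (PowerSeries E)[X][X], Dg β (l * H) G' ∧ red G' ≠ 0 ∧ ∀ z : E, μ.den (z ^ l) ≠ 0 →
      Va M G (μ.app (z ^ l)) (tw l r τ (μ.app (z ^ l))) → Va (M / l) G' z (tw l (r + 1) τ z)

/-- (V5) **A segment in a frame.** `P / Q` is the `m`-th iterate. Proof. Some residue class modulo `m`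
contains at least `|W| / m` elements of `W`; let `i₁` be the least of them. By `Ov` the map `P / Q`
maps `μ(E_K ∪ {∞})` into itself, `E_K = E ^ (l ^ K)`, so `x(i₁ + j m)`, which is the `j`-th iterate of
`x(i₁)` under `P / Q`, is in `Sub l K μ` or is the point `μ(∞)`, for all `j` with `i₁ + j m < n`. As the
`x i` are different the second case occurs for at most one `j`; cut there and take the part with more
elements of `W`. -/
def S_segP : Prop :=
  ∀ (l K d m : ℕ) (E : Type u) [Field E] [Fact l.Prime] [CharP E l] (p q P₀ Q₀ : E[X])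
    (μ : Mb E), 1 ≤ d → RM d p q → 1 ≤ m →
    Ov l K (d ^ m) μ (itr d p q m).1 (itr d p q m).2 P₀ Q₀ → ∀ (n : ℕ) (x : ℕ → E), Seg p q n x →
    ∀ W ⊆ range n, (∀ i ∈ W, Sub l K μ (x i)) →
    ∃ i₀ n' : ℕ, n' ≤ n ∧ Seg (itr d p q m).1 (itr d p q m).2 n' (fun j => x (i₀ + j * m)) ∧
      (∀ j < n', Sub l K μ (x (i₀ + j * m))) ∧
      (W.card : ℝ) ≤ 2 * m * (((range n').filter fun j => i₀ + j * m ∈ W).card : ℝ)

/-- (V6) **Sublines of level `K` with many points.** Proof by induction on `K`, for all `d`, `β`,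
`ε` simultaneously. `K = 0`: `μ` the identity, `M = 0`, `η = ε`. Step: let `ε₁`, `M₁` be from (N20)
`S_ndP` for `d`, `β`, `ε`; let `J`, `ε₂` be from (N2) for `m₀ = 1` and `ε₁ / 2`. For the finitely many
degrees `D₀ = d ^ m`, `m ≤ J`, the induction hypothesis for `D₀`, `β`, `ε₃ = ε₁ / (4 J)` gives `η'`, `M'`;
let `M ≥ M₁`, `M ≥ l M'`. Given the data: (N20) gives `W₁ ⊆ W` with at least `ε₁ n` elements and a
quadratic relation; (V1) gives a frame `μ`, and all but one of the `i` in `W₁`, at least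
`(ε₁ / 2) n` indices, satisfy `Sub l 1 μ (x i)`. (N2): there is `m ≤ J` such that at least `ε₂ n` of
these `i` have `i + m` also in this set. (V2) for the `m`-th iterate `P / Q` (degree `d ^ m`, by (N3)):
there are `P₀`, `Q₀` with `Ov l 1 (d ^ m) μ P Q P₀ Q₀`. (V5) gives a segment `x(i₀ + j m)`, `j < n'`, with
at least `(ε₁ / (4 J)) n ≥ ε₃ n'` indices `j` with `i₀ + j m` in `W₁`, and (V3) gives `z_j`. (V4) gives a
relation of level `r + 1` modulo `δ ^ (M / l)` for the `z_j` with `i₀ + j m` in `W`. The induction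
hypothesis for `P₀ / Q₀`, `z`, gives `μ'` with `z_j` in `Sub l K μ'` for at least `η' n' ≥ η' ε₃ n`
indices `j` (`n' ≥ ε₃ n`, so `n'` is large if `n` is). If
`z = μ'(w ^ (l ^ K))` then `μ(z ^ l) = μ(μ'^{(l)}(w ^ (l ^ (K + 1))))` where the entries of `μ'^{(l)}`
are the `l`-th powers of the entries of `μ'`; so `Sub l (K + 1) (μ ∘ μ'^{(l)}) x`. (`S_ndP`, `S_frmP`,
`S_pigP`, `S_itP`, `S_intpP`, `S_segP`, `S_dnP`, `S_rldP` may be assumed.) -/
def S_fsk0P : Prop :=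
  ∀ (l d β K : ℕ) (ε : ℝ), l.Prime → 2 ≤ d → 0 < ε → ∃ (η : ℝ) (M : ℕ), 0 < η ∧
    ∀ r H : ℕ, ∃ N₀ : ℕ,
    ∀ (k E : Type u) [Field k] [Field E] [Algebra k E] [Fact l.Prime] [CharP E l]
    (τ : E →ₐ[k] PowerSeries E) (D : Derivation k E E), IsHT l τ D → ∀ p q : E[X], RM d p q →
    ∀ (n : ℕ) (x : ℕ → E), Seg p q n x → N₀ ≤ n → ∀ W ⊆ range n, ε * n ≤ (W.card : ℝ) →
    ∀ G : (PowerSeries E)[X][X], Dg β H G → red G ≠ 0 →
    (∀ i ∈ W, Va M G (x i) (tw l r τ (x i))) →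
    ∃ (μ : Mb E), μ.det ≠ 0 ∧ ∃ W' ⊆ W, η * n ≤ (W'.card : ℝ) ∧ ∀ i ∈ W', Sub l K μ (x i)

/-- (V7) **Levels and the twisted Taylor homomorphism.** Proof. First: induction on `K`; for
`K = 0` take `w = y`. If the coefficients of `δ ^ n`, `1 ≤ n < l ^ (K + 1)`, in `tw l r τ y`, that is
`D_n(y) ^ q` with `τ y = ∑ D_n(y) δ ^ n`, vanish, then `D y = D_1(y) = 0`, `y = z ^ l`,
`τ y = (τ z) ^ l = ∑ D_n(z) ^ l δ ^ (l n)`, so `D_n(z) = 0` for `1 ≤ n < l ^ K`. Second: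
`tw l r τ (w ^ (l ^ K)) = (tw l r τ w) ^ (l ^ K)`, whose coefficients at exponents not divisible by
`l ^ K` vanish, with constant coefficient `w ^ (q l ^ K)`; third: if moreover `D w ≠ 0` then the
coefficient of `δ ^ (l ^ K)` is `D(w) ^ (q l ^ K) ≠ 0`. -/
def S_levP : Prop :=
  ∀ (l r K : ℕ) (k E : Type u) [Field k] [Field E] [Algebra k E] [Fact l.Prime] [CharP E l]
    (τ : E →ₐ[k] PowerSeries E) (D : Derivation k E E), IsHT l τ D →
    (∀ y : E, (PowerSeries.X : PowerSeries E) ^ l ^ K ∣ tw l r τ y - PowerSeries.C (y ^ l ^ r) →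
      ∃ w, y = w ^ l ^ K) ∧
    (∀ w : E, (PowerSeries.X : PowerSeries E) ^ l ^ K ∣
      tw l r τ (w ^ l ^ K) - PowerSeries.C ((w ^ l ^ K) ^ l ^ r)) ∧
    (∀ w : E, D w ≠ 0 → ¬ (PowerSeries.X : PowerSeries E) ^ (l ^ K + 1) ∣
      tw l r τ (w ^ l ^ K) - PowerSeries.C ((w ^ l ^ K) ^ l ^ r))

/-- (V8) **Vandermonde.** Proof. Let `σ = tw l r τ`, `q = l ^ r`, `L₁ = l ^ K₁`. For a frame `μ` let
`c_μ(X) = μ^σ((μ⁻¹(X)) ^ q)`, an element of `S = PowerSeries (RatFunc E)` (the entries of `μ^σ` are the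
images by `σ` of the entries of `μ`; the denominator `(μ^σ).γ (μ⁻¹ X) ^ q + (μ^σ).δ` is a unit of `S`, its
reduction is the `q`-th power of `μ.den (μ⁻¹ X)`, a nonzero rational function). If `x = μ(w ^ L₁)` then
`σ(x) = μ^σ(σ(w ^ L₁))` and by (V7) `σ(w ^ L₁) = (w ^ L₁) ^ q` modulo `δ ^ L₁`, so `σ(x) = c_μ(x)`
modulo `δ ^ L₁` (if `x` is not a pole). So for each `a` the element `G(X, c_{μ_a}(X))` of `S`, times
denominators of bounded degree, has coefficients of `δ ^ n`, `n < L₁`, which are polynomials in `X` of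
bounded degree with at least `C - 1` zeros (`x` in `T a`), so they vanish:
`∑_j G_j(X) c_a ^ j = 0` modulo `δ ^ L₁` for the `β + 1` elements `c_a = c_{μ_a}`. Multiplying by the
adjugate of the Vandermonde matrix, `G_j ∏_{a < b} (c_a - c_b) = 0` modulo `δ ^ L₁` for all `j`; some
`G_j` is a unit in `S`, so `∏_{a < b} (c_a - c_b)` is divisible by `δ ^ L₁`, and there are `a < b` with
`c_a - c_b` divisible by `δ ^ (l ^ K)`, since there are at most `(β + 1) ^ 2` pairs. Take `x` in `T b`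
which is not a pole of the coefficients of `δ ^ n`, `n < L₁`, in `c_a`, `c_b`, and not `μ_a(∞)`. Then
`σ(x) = c_a(x)` modulo `δ ^ (l ^ K)`, and with `y = μ_a⁻¹(x)`: `μ_a^σ(σ(y)) = σ(x) = μ_a^σ(y ^ q)` modulo
`δ ^ (l ^ K)`, so `σ(y) = y ^ q` modulo `δ ^ (l ^ K)`, and by (V7) `y` is in `E ^ (l ^ K)`. -/
def S_vdmP : Prop :=
  ∀ (l β K K₁ r H : ℕ), l.Prime → (β + 1) ^ 2 * l ^ K ≤ l ^ K₁ → ∃ C₁ : ℕ,
    ∀ (k E : Type u) [Field k] [Field E] [Algebra k E] [Fact l.Prime] [CharP E l]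
    (τ : E →ₐ[k] PowerSeries E) (D : Derivation k E E), IsHT l τ D →
    ∀ G : (PowerSeries E)[X][X], Dg β H G → red G ≠ 0 →
    ∀ (μ : Fin (β + 1) → Mb E) (T : Fin (β + 1) → Finset E), (∀ a, (μ a).det ≠ 0) →
    (∀ a, C₁ ≤ (T a).card) →
    (∀ a, ∀ x ∈ T a, Sub l K₁ (μ a) x ∧ Va (l ^ K₁) G x (tw l r τ x)) →
    ∃ a b, a < b ∧ ∃ x ∈ T b, Sub l K (μ a) x

/-- (V9) **Sublines of level `K` with a proportion of the points independent of `K`.** Proof. Let
`K₁ = K + c₁` with `l ^ c₁ ≥ (β + 1) ^ 2`, let `η`, `M₀` be from (V6) for `K₁`, `ε / 2`, and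
`M = max (M₀, l ^ K₁)`. Choose successively frames `μ_1, μ_2, …`: given `μ_1, …, μ_j`, let `W_j` be the set
of the `i` in `W` with `x i` in none of the `Sub l K μ_a`, `a ≤ j`; if `W_j` has at least
`(ε / 2) n` elements, (V6) gives `μ_{j+1}` with at least `η n` indices in `W_j` with
`x i` in `Sub l K₁ μ_{j+1}`. This process stops with some `j ≤ β`: otherwise (V8) for
`μ_1, …, μ_{β+1}` and these sets of points gives `a < b` and a point of the set of `μ_b` in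
`Sub l K μ_a`, a contradiction. So the `Sub l K μ_a`, `a ≤ j ≤ β`, contain together at least
`(ε / 2) n` of the points of `W`, and one of them at least `(ε / (2 (β + 1))) n`. (`S_fsk0P`, `S_vdmP`
may be assumed.) -/
def S_fskP : Prop :=
  ∀ (l d β K : ℕ) (ε : ℝ), l.Prime → 2 ≤ d → 0 < ε → ∃ M : ℕ, ∀ r H : ℕ, ∃ N₀ : ℕ,
    ∀ (k E : Type u) [Field k] [Field E] [Algebra k E] [Fact l.Prime] [CharP E l]
    (τ : E →ₐ[k] PowerSeries E) (D : Derivation k E E), IsHT l τ D → ∀ p q : E[X], RM d p q →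
    ∀ (n : ℕ) (x : ℕ → E), Seg p q n x → N₀ ≤ n → ∀ W ⊆ range n, ε * n ≤ (W.card : ℝ) →
    ∀ G : (PowerSeries E)[X][X], Dg β H G → red G ≠ 0 →
    (∀ i ∈ W, Va M G (x i) (tw l r τ (x i))) →
    ∃ (μ : Mb E), μ.det ≠ 0 ∧ ∃ W' ⊆ W, ε / (2 * (β + 1)) * n ≤ (W'.card : ℝ) ∧
      ∀ i ∈ W', Sub l K μ (x i)

/-- (V10) **Semiconjugate maps.** `c` is such that `l ^ c ≥ D₀ ^ ℓ + 1` for the prime `ℓ` below.
Proof. Let `L` be an algebraic closure of `E`, `F = P / Q`, `F' = P' / Q'` (coefficients in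
`E ^ (l ^ K)`), `R = v / w`, `R ∘ F = F' ∘ R`. Choose, by (N12) `S_prcP`, a prime
`ℓ ≥ 3 e₀ + 2` from a finite list depending only on `l`, `D₀`, `e₀` for which `F` has a cycle of exact
length `ℓ` in `L`. Apply `τ` to the coefficients (write `v^τ` etc.; `P^τ = P` and so on modulo
`δ ^ Λ`, `Λ = l ^ K`, because `τ(c ^ Λ) = τ(c) ^ Λ = c ^ Λ` modulo `δ ^ Λ`): `R^τ ∘ F = F' ∘ R^τ` modulo
`δ ^ Λ`. For a point `y` of the cycle with `w(y) ≠ 0` at all points of the cycle... it is enough to use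
the points `y` of the cycle such that `R(y)` is finite: there `V = R^τ(y)` in `PowerSeries L` satisfies
`F'^ℓ(V) = R^τ(F^ℓ(y)) = V` modulo `δ ^ Λ`, as an identity of points of the projective line over
`PowerSeries L / δ ^ Λ`, that is `Ψ(V) = 0` modulo `δ ^ Λ`, `Ψ = P'_ℓ - X Q'_ℓ` (iterates; a polynomial
over `E`, not zero, of degree at most `D₀ ^ ℓ + 1`). The constant coefficient `V₀ = R(y)` of `V` is a root
of `Ψ` of some multiplicity `e ≤ D₀ ^ ℓ + 1`, and `Ψ(V) = (V - V₀) ^ e * unit`, so `V = V₀` modulo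
`δ ^ m`, `m ≥ Λ / (D₀ ^ ℓ + 1)`, so `m ≥ l ^ (K - c)`. (One can choose homogeneous coordinates, so that
the composition formulas are polynomial identities: with the forms of `F'` and `Ψ`.) So
`v^τ w - v w^τ`, a polynomial of degree at most `2 e₀`, vanishes modulo `δ ^ m` at more than `2 e₀`
points `y` of `L`, so it is zero modulo `δ ^ m`. Multiply `v`, `w` by a constant `λ` such that one of the
coefficients of `v`, `w` is `1`. From `v^τ w = v w^τ` modulo `δ ^ m`, `v`, `w` coprime: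
`v^τ = ρ v`, `w^τ = ρ w` modulo `δ ^ m` with a polynomial, hence (degrees) a constant `ρ`, and the
normalised coefficient gives `ρ = 1`. So `τ(e) = e` modulo `δ ^ (l ^ (K - c))` for all the
coefficients `e`, and by (V7) with `r = 0` they are in `E ^ (l ^ (K - c))`. -/
def S_ctP : Prop :=
  ∀ (l D₀ e₀ : ℕ), l.Prime → 2 ≤ D₀ → 1 ≤ e₀ → ∃ c : ℕ,
    ∀ (k E : Type u) [Field k] [Field E] [Algebra k E] [Fact l.Prime] [CharP E l]
    (τ : E →ₐ[k] PowerSeries E) (D : Derivation k E E), IsHT l τ D → ∀ (K : ℕ)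
    (P Q P' Q' v w : E[X]), RM D₀ (P.map (iterateFrobenius E l K)) (Q.map (iterateFrobenius E l K)) →
    RM D₀ (P'.map (iterateFrobenius E l K)) (Q'.map (iterateFrobenius E l K)) → RM e₀ v w →
    hcm e₀ v (P.map (iterateFrobenius E l K)) (Q.map (iterateFrobenius E l K)) *
        hcm D₀ (Q'.map (iterateFrobenius E l K)) v w =
      hcm e₀ w (P.map (iterateFrobenius E l K)) (Q.map (iterateFrobenius E l K)) *
        hcm D₀ (P'.map (iterateFrobenius E l K)) v w →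
    ∃ (b : E) (v₀ w₀ : E[X]), b ≠ 0 ∧ C b * v = v₀.map (iterateFrobenius E l (K - c)) ∧
      C b * w = w₀.map (iterateFrobenius E l (K - c))

/-- (V11) **From relations to a frame for the map itself.** Proof. Let `ε' = ε / (2 (β + 1))`, `J`,
`ε''` from (N2) for `m₀ = 1`, `ε'`; `c` the maximum of the numbers of (V10) for `D₀ = d ^ m`,
`1 ≤ m ≤ J`, `e₀ = d`; `K = K' + c`; `M` from (V9) for this `K`. (V9) gives `μ`, `W'` with
`ε' n ≤ |W'|`. (N2): `m ≤ J` with at least `ε'' n` indices `i` with `i, i + m` in `W'`. (V2) for the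
`m`-th iterate `P / Q` gives `Ov l K (d ^ m) μ P Q P₀ Q₀`: `F = μ⁻¹ (P / Q) μ` has coefficients in
`E ^ (l ^ K)`. Let `R = μ⁻¹ (p / q) μ = v / w`, of degree `d`. It commutes with `F`: the `m`-th iterate
commutes with `p / q` (identity in `RatFunc E` from (N3), or evaluate at infinitely many points of an
algebraic closure). (V10) with `P' = P`, `Q' = Q` gives `C b * v`, `C b * w` with coefficients in
`E ^ (l ^ (K - c))`, so `Ov l K' d μ p q p₀ q₀` (`K - c = K'`). And `Sub l K μ x` implies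
`Sub l K' μ x`. (`S_fskP`, `S_pigP`, `S_itP`, `S_intpP`, `S_ctP` may be assumed.) -/
def S_comP : Prop :=
  ∀ (l d β K' : ℕ) (ε : ℝ), l.Prime → 2 ≤ d → 0 < ε → ∃ M : ℕ, ∀ r H : ℕ, ∃ N₀ : ℕ,
    ∀ (k E : Type u) [Field k] [Field E] [Algebra k E] [Fact l.Prime] [CharP E l]
    (τ : E →ₐ[k] PowerSeries E) (D : Derivation k E E), IsHT l τ D → ∀ p q : E[X], RM d p q →
    ∀ (n : ℕ) (x : ℕ → E), Seg p q n x → N₀ ≤ n → ∀ W ⊆ range n, ε * n ≤ (W.card : ℝ) →
    ∀ G : (PowerSeries E)[X][X], Dg β H G → red G ≠ 0 →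
    (∀ i ∈ W, Va M G (x i) (tw l r τ (x i))) →
    ∃ (μ : Mb E) (p₀ q₀ : E[X]), Ov l K' d μ p q p₀ q₀ ∧ ∃ i ∈ W, Sub l K' μ (x i)

/-- (X1) **Composition of relations.** `θ` below is the ring endomorphism of `O` which applies
`e ↦ h₁(e) ^ (l ^ r₁)` to the coefficients. Proof. For `Va M F₂ x (tw l r₂ τ (h₂ x))` apply `θ`:
with `w = h₁(x) ^ (l ^ r₁)` and `F₂^θ` (coefficients by `θ`) one gets
`F₂^θ(w, y) = 0` modulo `δ ^ M` for `y = θ(tw l r₂ τ (h₂ x)) = tw l (r₁ + r₂) τ (h₁ (h₂ x))`, because `τ`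
commutes with `h₁` and Frobenius commutes with everything. Write `f₁(X, w) = g(w) f(X, w)` with `g` in
`E[w]` and `f` without nonconstant factor in `E[w]` (the content with respect to `X`; `g` has degree at
most `b₁`). `Exc`: the `x` with `g(h₁(x) ^ (l ^ r₁)) = 0` (at most `b₁`, as `x ↦ h₁(x) ^ (l ^ r₁)` is
injective), and if `f` does not contain `w` the roots of `f` (at most `H₁`). If `f` does not contain `w`
take for `F₃` any polynomial, for instance `1`: the hypothesis is never satisfied outside `Exc`.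
Otherwise let `F₃(X, Y)` be the resultant with respect to `w` of `f(X, w)` (degree at most `b₁` in `w`,
`H₁` in `X`) and `F₂^θ(w, Y)` (degree at most `H₂` in `w`, `b₂` in `Y`), formal degrees at most
`b₁`, `H₂` (use the exact degree of `f` in `w`, at least `1`, and the formal degree `H₂` for the other,
so that the reduction of the resultant is the resultant of the reductions). It is in the ideal
generated by the two polynomials, so it vanishes modulo `δ ^ M` at `(x, y)`. Its reduction is the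
resultant of `f(X, w)` and `red F₂^θ(w, Y) ≠ 0`, not zero, because these polynomials have no common
factor of positive degree in `w` over the field `E(X, Y)`: by Gauss a common factor could be taken in
`E[X, Y, w]`, it would divide `f`, so it does not contain `Y`, and divide `red F₂^θ`, so it
does not contain `X`; a factor of `f` in `E[w]` is constant. Degrees: at most `H₁ H₂` in `X`,
`b₁ b₂` in `Y`. -/
def S_compP : Prop :=
  ∀ (l r₁ r₂ b₁ b₂ H₁ H₂ : ℕ) (k E : Type u) [Field k] [Field E] [Algebra k E] [Fact l.Prime]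
    [CharP E l] (τ : E →ₐ[k] PowerSeries E) (D : Derivation k E E), IsHT l τ D →
    ∀ (h₁ : E ≃ₐ[k] E) (h₂ : E → E),
    (∀ x, τ (h₁ x) = PowerSeries.map ((h₁ : E →ₐ[k] E) : E →+* E) (τ x)) →
    ∀ (f₁ : E[X][X]) (F₂ : (PowerSeries E)[X][X]), Dg b₁ H₁ f₁ → f₁ ≠ 0 → Dg b₂ H₂ F₂ →
    red F₂ ≠ 0 → ∃ (F₃ : (PowerSeries E)[X][X]) (Exc : Finset E), Dg (b₁ * b₂) (H₁ * H₂) F₃ ∧
      red F₃ ≠ 0 ∧ Exc.card ≤ b₁ + H₁ ∧ ∀ x ∉ Exc, ∀ M : ℕ,
        f₁.evalEval x (h₁ x ^ l ^ r₁) = 0 → Va M F₂ x (tw l r₂ τ (h₂ x)) →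
        Va M F₃ x (tw l (r₁ + r₂) τ (h₁ (h₂ x)))

/-- (X2) **Elimination of the automorphism.** Proof. For `j = 1, 2, …, o` construct
`F_j`, with degrees at most `b ^ j`, `H ^ j`, `red F_j ≠ 0`, and an exceptional set, such that
`Va M F_j x (tw l (r j) τ (h^j x))`: `F_1 = F`; `F_{j+1}` by (X1) with
`f₁ = red F` (`Va M F x (tw l r τ (h x))`, `M ≥ 1`, gives `(red F)(x, h(x) ^ (l ^ r)) = 0`), `h₁ = h`,
`r₁ = r`, `F₂ = F_j`, `h₂ = h^j`, `r₂ = r j`. Finally `h^o = 1`. (`S_compP` may be assumed.) -/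
def S_elmP : Prop :=
  ∀ (l r b H o : ℕ) (k E : Type u) [Field k] [Field E] [Algebra k E] [Fact l.Prime]
    [CharP E l] (τ : E →ₐ[k] PowerSeries E) (D : Derivation k E E), IsHT l τ D →
    ∀ (h : E ≃ₐ[k] E), 1 ≤ o → h ^ o = 1 →
    (∀ x, τ (h x) = PowerSeries.map ((h : E →ₐ[k] E) : E →+* E) (τ x)) →
    ∀ F : (PowerSeries E)[X][X], Dg b H F → red F ≠ 0 →
    ∃ (F' : (PowerSeries E)[X][X]) (Exc : Finset E), Dg (b ^ o) (H ^ o) F' ∧ red F' ≠ 0 ∧
      Exc.card ≤ o * (b + H) ∧ ∀ x ∉ Exc, ∀ M : ℕ, 1 ≤ M →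
        Va M F x (tw l r τ (h x)) → Va M F' x (tw l (r * o) τ x)

/-- (X3) **The degenerate case.** Proof. Let `G = ∑_i c_i X ^ (i.1) Y ^ (i.2)`, degrees at most `b`, `a`.
Let `o ≤ ν` be such that `h ^ o = 1`. (X2) gives `G'` of degrees at most `b ^ ν`, `a ^ ν` (take the
maximum with `1`) and level `r o`, valid outside an exceptional set of bounded size. For every
`o ≤ ν` let `M_o` be the number of (V11) for `β = b ^ o`, `ε / 2`; `M` the maximum of the `M_o` and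
`1`. For `n` large at least `(ε / 2) n` indices of `W` are not exceptional. (`S_elmP`, `S_comP` may be
assumed.) -/
def S_mtP : Prop :=
  ∀ (l d ν b K' : ℕ) (ε : ℝ), l.Prime → 2 ≤ d → 0 < ε → ∃ M : ℕ, ∀ r a : ℕ, ∃ N₀ : ℕ,
    ∀ (k E : Type u) [Field k] [Field E] [Algebra k E] [Fact l.Prime] [CharP E l]
    (τ : E →ₐ[k] PowerSeries E) (D : Derivation k E E), IsHT l τ D → ∀ p q : E[X], RM d p q →
    ∀ (n : ℕ) (x : ℕ → E), Seg p q n x → N₀ ≤ n → ∀ W ⊆ range n, ε * n ≤ (W.card : ℝ) →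
    ∀ (h : E ≃ₐ[k] E) (o : ℕ), 1 ≤ o → o ≤ ν → h ^ o = 1 →
    (∀ x, τ (h x) = PowerSeries.map ((h : E →ₐ[k] E) : E →+* E) (τ x)) →
    ∀ c : II a b → PowerSeries E, (∃ i, PowerSeries.constantCoeff (c i) ≠ 0) →
    (∀ i ∈ W, (PowerSeries.X : PowerSeries E) ^ M ∣
      ∑ j, c j * PowerSeries.C (x i) ^ (j.1 : ℕ) * tw l r τ (h (x i)) ^ (j.2 : ℕ)) →
    ∃ (μ : Mb E) (p₀ q₀ : E[X]), Ov l K' d μ p q p₀ q₀ ∧ ∃ i ∈ W, Sub l K' μ (x i)

end Pool.Agent.Q41.SP
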