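import Pool.Agent.Q41.SP.Stm1
import Pool.Agent.Q41.SP.Stm2
import Pool.Agent.Q41.SP.Stm5
import Pool.Agent.Q41.SU.Stm6

/-!
# Statements, part 6: selection, capture, levels, the bound for orbits
-/

namespace Pool.Agent.Q41.SP

open Finset Polynomial
open Pool.Agent.Q41.SU
open Pool.Agent.W277.UH (ConjConst)

universe u

/-- (Y0) **The Taylor homomorphism** in characteristic `l` (proved by helper103 as `tayP`, in
`Pool/Agent/Q103/FS`). -/
def S_hsP : Prop :=
  ∀ (l : ℕ) (k E : Type u) [Field k] [IsAlgClosed k] [Field E] [Algebra k E] [Fact l.Prime]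
    [CharP E l] (t : E) (G : Subgroup (E ≃ₐ[k] E)) [Fintype G], IsGal k t G →
    ∃ (τ : E →ₐ[k] PowerSeries E) (D : Derivation k E E), IsHT l τ D ∧ D t = 1 ∧
      τ t = PowerSeries.C t + PowerSeries.X ∧
      (∀ g ∈ G, ∀ y, τ (g y) = PowerSeries.map ((g : E →ₐ[k] E) : E →+* E) (τ y)) ∧
      ∀ g ∈ G, ∀ y, D (g y) = g (D y)

/-- (Y1) **Newton polygons.** Proof. `σ = tw l r τ`, `q = l ^ r`. Write
`G = ∑_{j ≤ β} A_j(X) (Y - X ^ q) ^ j` with `A_j` in `O[X]` of degree at most `H + q β`. Let `a_j` be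
the exact power of `δ` dividing `A_j` (if `A_j ≠ 0`), `A_j = δ ^ a_j A'_j`, `red A'_j ≠ 0`; `a_j = 0`
for some `j`. For all but at most `(β + 1) (H + q β)` of the `i` in `I` no `red A'_j` vanishes at
`x i`, and then the order of `A_j(x i)` is `a_j`. By (V7) `S_levP` the order of
`σ(x i) - (x i) ^ q` is exactly `l ^ lv i`, so the order of the `j`-th term is `a_j + j l ^ lv i`. If
the minimum of these orders is attained for only one `j`, it is the order of `G(x i, σ (x i))`, and it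
is at most `j l ^ lv i ≤ β l ^ lv i` for the `j` with `a_j = 0`. If it is attained for `j < j'` then
`a_j - a_{j'} = (j' - j) l ^ lv i` determines `lv i`, hence `i`; so this happens for at most
`(β + 1) ^ 2` of the `i`. (`S_levP` may be assumed.) -/
def S_npP : Prop :=
  ∀ (l r β H : ℕ), l.Prime → ∃ C₁ : ℕ,
    ∀ (k E : Type u) [Field k] [Field E] [Algebra k E] [Fact l.Prime] [CharP E l]
    (τ : E →ₐ[k] PowerSeries E) (D : Derivation k E E), IsHT l τ D →
    ∀ G : (PowerSeries E)[X][X], Dg β H G → red G ≠ 0 →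
    ∀ (I : Finset ℕ) (x : ℕ → E) (lv : ℕ → ℕ), Set.InjOn x I → Set.InjOn lv I →
    (∀ i ∈ I, ∃ w, D w ≠ 0 ∧ x i = w ^ l ^ lv i) →
    (∀ i ∈ I, Va (β * l ^ lv i + 1) G (x i) (tw l r τ (x i))) → I.card ≤ C₁

/-- (Y2) **Selection of a nondegenerate family.** As `S_sel` (`Q41/SU/Stm5.lean`, proof
`Q210/SU/N11.lean` or near it). Let `M₀` be the number of (X3) `S_mtP` for `b`, `K'`,
`ε = 1 / (2 ν + 2)`, at least `1`. Proof. Enumerate the `N = (a + 1) (b + 1)` rows and choose the points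
one after another such that after `m` points, for every `h` in `G`, some minor of size `m` (some set of
`m` columns) of the matrix with rows `x ^ i₁ σ(h x) ^ i₂`, `σ = tw l r τ`, is not divisible by
`δ ^ (M₀ m + 1)`. Step: for `h` let `T_h` be a set of columns whose minor has the least order
`m_h ≤ M₀ m` among all minors of size `m` of the chosen rows, `c` a column outside `T_h`; the minor
of size `m + 1` with columns `T_h ∪ {c}` and new row `x` is `∑ ± minor * x ^ i₁ σ(h x) ^ i₂`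
(expansion along the new row), which is `δ ^ m_h` times an expression as in (X3), the coefficient of the
column `c` having nonzero constant term. If for some `h` this expression is divisible by `δ ^ M₀` for at
least `ε n` of the `x i`, (X3) gives the first alternative (`h ^ o = 1` for the order `o ≤ ν` of
`h`). Otherwise there is an `x i` for which it is not divisible by `δ ^ M₀` for all `h` in `G`. The rows
are different because the determinant for `h = 1` is not zero. (`S_mtP` may be assumed.) -/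
def S_selP : Prop :=
  ∀ (l d ν b K' : ℕ), l.Prime → 2 ≤ d → 1 ≤ ν → ∃ M₀ : ℕ, ∀ r a : ℕ, ∃ N₀ : ℕ,
    ∀ (k E : Type u) [Field k] [Field E] [Algebra k E] [Fact l.Prime] [CharP E l]
    (τ : E →ₐ[k] PowerSeries E) (D : Derivation k E E), IsHT l τ D → ∀ p q : E[X], RM d p q →
    ∀ (n : ℕ) (x : ℕ → E), Seg p q n x → N₀ ≤ n →
    ∀ (G : Subgroup (E ≃ₐ[k] E)) [Fintype G], Fintype.card G ≤ ν →
    (∀ g ∈ G, ∀ y, τ (g y) = PowerSeries.map ((g : E →ₐ[k] E) : E →+* E) (τ y)) →
    (∃ (μ : Mb E) (p₀ q₀ : E[X]), Ov l K' d μ p q p₀ q₀ ∧ ∃ i < n, Sub l K' μ (x i)) ∨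
    ∃ y : II a b → E, Function.Injective y ∧ (∀ j, ∃ i < n, y j = x i) ∧
      ∀ g ∈ G, ¬ (PowerSeries.X : PowerSeries E) ^ (M₀ * ((a + 1) * (b + 1)) + 1) ∣
        bd a b (fun j => PowerSeries.C (y j)) (fun j => tw l r τ (g (y j)))

/-- (Y3) **Selection in a window.** Proof. As (Y2). In a step, for each `h` in `G` (of order
`o ≤ ν`), let `F_h` be the relation, of degrees at most `b`, `a`, `red F_h ≠ 0`. By (X2)
`S_elmP` there is `F'` of degrees at most `b ^ o`, `a ^ o`, `red F' ≠ 0`, and a small exceptional set,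
such that for the other `x i` divisibility of `F_h(x i, σ (h (x i)))` by `δ ^ M` implies
`Va M F' (x i) (tw l (r o) τ (x i))`. With `M = b ^ ν l ^ (e i) + 1 ≥ b ^ o l ^ (e i) + 1` and
(Y1) for `lv i = e i`: the number of the `i` for which `F_h(x i, σ (h (x i)))` is divisible by
`δ ^ (b ^ ν l ^ (e i) + 1)` is bounded. So if `N'` is large there is `i < N'` for which this is not the
case for all `h` in `G`, and the order is at most `b ^ ν l ^ (e N')`. (`S_npP`, `S_elmP` may be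
assumed.) -/
def S_selTP : Prop :=
  ∀ (l ν b a r e : ℕ), l.Prime → 1 ≤ ν → 1 ≤ b → 1 ≤ e → ∃ N' : ℕ,
    ∀ (k E : Type u) [Field k] [Field E] [Algebra k E] [Fact l.Prime] [CharP E l]
    (τ : E →ₐ[k] PowerSeries E) (D : Derivation k E E), IsHT l τ D →
    ∀ (G : Subgroup (E ≃ₐ[k] E)) [Fintype G], Fintype.card G ≤ ν →
    (∀ g ∈ G, ∀ y, τ (g y) = PowerSeries.map ((g : E →ₐ[k] E) : E →+* E) (τ y)) →
    ∀ x : ℕ → E, (∀ i < N', ∀ j < N', x i = x j → i = j) →
    (∀ i < N', ∃ w, D w ≠ 0 ∧ x i = w ^ l ^ (e * i)) →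
    ∃ y : II a b → E, Function.Injective y ∧ (∀ j, ∃ i < N', y j = x i) ∧
      ∀ g ∈ G, ¬ (PowerSeries.X : PowerSeries E) ^
          (b ^ ν * l ^ (e * N') * ((a + 1) * (b + 1)) + 1) ∣
        bd a b (fun j => PowerSeries.C (y j)) (fun j => tw l r τ (g (y j)))

/-- (Y4) **Capture.** This is the analogue of `S_core` (`Q41/SU/Stm6.lean`, (A6), proof
`Pool.Agent.Q177.SU.core` in `Q177/SU/Core.lean`; adapt this file). Let `c'`, `η`, `N₁` be from
`S_locP` for `d`; `b` from `S_ncP` for `l`, `d`, `ν`, `max N₁ (3 d + 4)`, `c'`, `η`; given `C₀` let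
`J`, `r`, `n` be from `S_ncP` for `C₀ ν!` in place of `C₀`; `a = J l ^ r b`, `N = (a + 1) (b + 1)`.
Given `Wt` choose `n₁` with `68 / d ^ n₁ ≤ η / 4`, `c'' = min (c', η / 68)`, `j₁` with
`l ^ j₁ ≥ 2 * 31680 d ^ n₁ ν! Wt / η`, `n_B` with `d ^ n_B ≥ 8 ν! Wt / c''`, `n_B ≥ n₁`, and
`N_B ≥ N₁`, `4`, `d ^ (2 n_B)`. Proof. As in (A6): a coordinate `t'` of the form `(t - t₁)⁻¹` such that
all embeddings with `t' ↦ s⁻¹` give norm `1` to the nonzero elements among `z`, `z - z'`, `q z`,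
`resultant q p d d` (`z`, `z'` in `P`) and their conjugates; `τ`, `D` from (Y0) `S_hsP` for `t'`; the
last hypothesis gives the rows `x`; `pp`, `S₀`, `a t₀ g` (`S_glob`); (L3) `S_locP` for
`j = ι t₀ ∘ g`, `u = u t₀ ∘ g` gives `R t₀ g`; `S` the set of the `t₀` in `S₀` with some
`R t₀ g ≥ 1`, nonempty by (A3) `S_ni` and `conj_of_cross` (`P` has at least `N ≥ 3 d + 4` elements);
Moebius maps as there; the main inequality (P7) `S_miP` with `c = C₀ N Wt`. It remains to check the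
hypothesis `|S| c ≤ C₀ ν! N ℰ` of `S_ncP`, `ℰ = ∑_S ∑ R / e`. If `Wt = 1` it follows from
`|S| ≤ ν! ℰ`. Otherwise let `B` be as given (a subset with at least `N_B` elements) and let
`En_B(t₀, g)` be the sum of `gg` over the pairs of different points of `B`, with vanishing global sum
(`S_glob`), `En_B ≥ -4 |B|² R / d ^ n_B` on `S`, `En_B ≥ 0` outside `S`. So the pairs
`(t₀, g)` in `S × G` with `En_B > c'' |B|² R` have `∑ R / e ≤ 4 ℰ / (c'' d ^ n_B)`. Let `(t₀, g)` be
another pair with `R ≥ 1`, `m` the Moebius map of the third clause of (L3) for the family `B`,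
`o' y y' = u t₀ (g (m y - m y'))`. `∑ o' ≥ η |B|² R`, `∑ o' ≤ 30 |B|² R`,
`∑ max 0 (o' - 33 d ^ n₁ R) ≤ 17 (c'' + 4 / d ^ n₁) |B|² R ≤ (η / 2) |B|² R`, so at least
`η |B|² / (66 d ^ n₁)` ordered pairs have `o' ≥ 1`. The cross differences
`o' a b + o' c e - o' a c - o' b e` are `u t₀ ∘ g` of the cross ratio
`(a - b) (c - e) / ((a - c) (b - e))`, an element of `E ^ (l ^ j₁)`, so divisible by `L = l ^ j₁`. (L4)
`S_quad` gives `L η |B|² / (66 d ^ n₁) ≤ 16 ∑ o' ≤ 480 |B|² R`, `R ≥ L η / (31680 d ^ n₁)`. So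
`|S| ≤ ν! (31680 d ^ n₁ / (η L) + 4 / (c'' d ^ n_B)) ℰ` (each `t₀` in `S` has a pair with `R ≥ 1`, of
the first or of the second kind, and `e ≤ ν!`), hence `|S| Wt ≤ ℰ`. -/
def S_capP : Prop :=
  ∀ (l d ν : ℕ), l.Prime → 2 ≤ d → 1 ≤ ν → ∃ b : ℕ, 1 ≤ b ∧ ∀ C₀ : ℕ, ∃ J r : ℕ, 2 ≤ J ∧
    ∀ Wt : ℕ, 1 ≤ Wt → ∃ N_B j₁ : ℕ,
    ∀ (k E : Type u) [Field k] [IsAlgClosed k] [Field E] [Algebra k E] [Fact l.Prime]
    [CharP k l] [CharP E l] (t : E) (G : Subgroup (E ≃ₐ[k] E)) [Fintype G], IsGal k t G →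
    Fintype.card G = ν → ∀ p q : E[X], p.natDegree ≤ d → q.natDegree = d → IsCoprime p q →
    ∀ P : Finset E, Stab p q P → ¬ ConjConst k p q d →
    (Wt = 1 ∨ ∃ B ⊆ P, N_B ≤ B.card ∧ ∀ y ∈ B, ∃ w, y = w ^ l ^ j₁) →
    (∀ (t' : E) (τ : E →ₐ[k] PowerSeries E) (D : Derivation k E E), IsHT l τ D →
      IsGal k t' G → τ t' = PowerSeries.C t' + PowerSeries.X →
      (∀ g ∈ G, ∀ y, τ (g y) = PowerSeries.map ((g : E →ₐ[k] E) : E →+* E) (τ y)) →
      ∃ x : II (J * l ^ r * b) b → E, Function.Injective x ∧ (∀ i, x i ∈ P) ∧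
        ∀ h ∈ G, ¬ (PowerSeries.X : PowerSeries E) ^
            (C₀ * ((J * l ^ r * b + 1) * (b + 1)) * Wt + 1) ∣
          bd (J * l ^ r * b) b (fun i => PowerSeries.C (x i)) (fun i => tw l r τ (h (x i)))) →
    False

/-- (Y5) **Dichotomy.** Proof. `b` from (Y4), `M₀` from (Y2) for this `b` and `K'`, `C₀ = M₀`, `J`,
`r` from (Y4), `N₀` from (Y2) for `r`, `a = J l ^ r b`. If the conclusion is false, the second
alternative of (Y2) holds for every `t'`, `τ`, `D`, and (Y4) with `Wt = 1` gives a contradiction.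
(`S_selP`, `S_capP` may be assumed.) -/
def S_dichP : Prop :=
  ∀ (l d ν K' : ℕ), l.Prime → 2 ≤ d → 1 ≤ ν → ∃ N₀ : ℕ,
    ∀ (k E : Type u) [Field k] [IsAlgClosed k] [Field E] [Algebra k E] [Fact l.Prime]
    [CharP k l] [CharP E l] (t : E) (G : Subgroup (E ≃ₐ[k] E)) [Fintype G], IsGal k t G →
    Fintype.card G = ν → ∀ p q : E[X], p.natDegree ≤ d → q.natDegree = d → IsCoprime p q →
    ∀ P : Finset E, Stab p q P → ¬ ConjConst k p q d → ∀ (n : ℕ) (x : ℕ → E), Seg p q n x →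
    (∀ i < n, x i ∈ P) → N₀ ≤ n →
    ∃ (μ : Mb E) (p₀ q₀ : E[X]), Ov l K' d μ p q p₀ q₀ ∧ ∃ i < n, Sub l K' μ (x i)

/-- (Y6) **Infinitely divisible elements are constant.** Proof. The coefficients of the product of
`Y - g x` over `g` in `G` are fixed by `G`, and if `x = w ^ (l ^ j)` they are the `l ^ j`-th powers of
the coefficients of the product of `Y - g w`; so by `IsGal.rat` they are rational functions of `t`
which are `l ^ j`-th powers of rational functions for all `j`, hence constants (the degree of a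
nonconstant rational function is not divisible by all `l ^ j`). So `x` is algebraic over `k`. -/
def S_infP : Prop :=
  ∀ (l : ℕ) (k E : Type u) [Field k] [IsAlgClosed k] [Field E] [Algebra k E] [Fact l.Prime]
    [CharP k l] [CharP E l] (t : E) (G : Subgroup (E ≃ₐ[k] E)) [Fintype G], IsGal k t G →
    ∀ x : E, (∀ j : ℕ, ∃ w, x = w ^ l ^ j) → ∃ c : k, x = algebraMap k E c

/-- (Y7) **Roots of polynomials over `E ^ (l ^ K)`.** Proof. Let `i` be the least natural number with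
`z ^ (l ^ i)` in the subfield `E_K = E ^ (l ^ K)` (`i ≤ K`). The minimal polynomial of `z` over `E_K` is
`X ^ (l ^ i) - z ^ (l ^ i)`, and it divides `Ψ`, so `l ^ i ≤ deg Ψ ≤ l ^ c`, `i ≤ c`. From
`z ^ (l ^ i) = v ^ (l ^ K)` follows `z = v ^ (l ^ (K - i))`, in `E ^ (l ^ (K - c))`. -/
def S_rtP : Prop :=
  ∀ (l K c : ℕ) (E : Type u) [Field E] [Fact l.Prime] [CharP E l] (Ψ : E[X]) (z : E), Ψ ≠ 0 →
    Ψ.natDegree ≤ l ^ c → (Ψ.map (iterateFrobenius E l K)).eval z = 0 →
    ∃ w, z = w ^ l ^ (K - c)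

/-- (Y8) **Choice of the frame.** Proof. Let `P₀ = μ⁻¹(P)` in `P^1(E)`. For `c` in `k` let
`κ(z) = c + 1 / z`, a Moebius map with entries in `k`, hence in `E ^ (l ^ h)` (`k` is algebraically
closed), and `μ' = μ ∘ κ`; then `μ'⁻¹(P) = κ⁻¹(P₀)`, `κ⁻¹(y) = 1 / (y - c)`. Choose `c` different from
the finitely many elements of `P₀` (so that `κ⁻¹(P₀)` does not contain `∞`; it does not matter if it
contains `0`) and such that `f'(c) ≠ c` where `f' = μ⁻¹ f μ`: the new map `κ⁻¹ f' κ` at `∞` is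
`κ⁻¹(f'(c)) ≠ ∞`, so the denominator has degree `d` (`d ≥ 2`, so `f'` has finitely many fixed points).
The new coefficients are those of a map over `E ^ (l ^ h)`. `P'` is the image of `P` under `μ'⁻¹`; it is
stable because `P` is. -/
def S_normP : Prop :=
  ∀ (l h d : ℕ) (k E : Type u) [Field k] [IsAlgClosed k] [Field E] [Algebra k E]
    [Fact l.Prime] [CharP k l] [CharP E l] (p q p₀ q₀ : E[X]) (μ : Mb E) (P : Finset E), 2 ≤ d →
    RM d p q → Stab p q P → Ov l h d μ p q p₀ q₀ →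
    ∃ (μ' : Mb E) (p₁ q₁ : E[X]) (P' : Finset E), Ov l h d μ' p q p₁ q₁ ∧ q₁.natDegree = d ∧
      P'.card = P.card ∧
      Stab (p₁.map (iterateFrobenius E l h)) (q₁.map (iterateFrobenius E l h)) P' ∧
      ∀ z ∈ P', μ'.den z ≠ 0 ∧ μ'.app z ∈ P

/-- (Y9) **Change of frames and Frobenius twists.** Proof. First: apply the `h`-th power of Frobenius
to the coefficients of the polynomial identity in `Ov l K d μ p₀ q₀ p₂ q₂`; `μ'` has the entries of
`μ` raised to the power `l ^ h`. Second: composition of the two frames. Third: `ConjConst` says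
`M ∘ p / q = g ∘ M` with `g` over `k`; the twist of `g` by Frobenius is over `k`; and
`M ∘ μ⁻¹` conjugates the original map. (For `h = 0` this is the invariance of `ConjConst` under
conjugation.) -/
def S_ovP : Prop :=
  ∀ (l K h d : ℕ) (k E : Type u) [Field k] [Field E] [Algebra k E] [Fact l.Prime] [CharP k l]
    [CharP E l] (p q p₀ q₀ : E[X]), 1 ≤ d → RM d p q →
    (∀ (μ : Mb E) (p₂ q₂ : E[X]), Ov l K d μ p₀ q₀ p₂ q₂ → ∃ μ' : Mb E,
      Ov l (K + h) d μ' (p₀.map (iterateFrobenius E l h)) (q₀.map (iterateFrobenius E l h))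
        p₂ q₂) ∧
    (∀ (μ : Mb E), Ov l h d μ p q p₀ q₀ → ∀ K', Hgt l K' d (p₀.map (iterateFrobenius E l h))
      (q₀.map (iterateFrobenius E l h)) → Hgt l K' d p q) ∧
    (∀ (μ : Mb E), Ov l h d μ p q p₀ q₀ → ConjConst k p₀ q₀ d → ConjConst k p q d)

/-- (Y10) **The height is bounded.** Proof. Height `≥ 0`: `μ` the identity. Suppose the height is at
least `h` for arbitrarily large `h`, `Ov l h d μ p q p₀ q₀`; by (Y8) one may assume that no point of
`P` is `μ(∞)`. Let `x` be in `P`, `x = μ(z)`. `x` is preperiodic: the `i`-th and the `j`-th iterates at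
`x` agree for some `i < j ≤ |P|`, so the same holds for `z` and `f' = p₀ / q₀` twisted; so `z` is a root
of `Ψ.map (iterateFrobenius E l h)`, `Ψ = P_i Q_j - P_j Q_i` for the iterates of `p₀ / q₀`,
`Ψ ≠ 0` (different degrees), `deg Ψ ≤ 2 d ^ |P| ≤ l ^ c` with `c` independent of `h`. By (Y7)
`z` is in `E ^ (l ^ (h - c))`. So the cross ratios of the points of `P` are in `E ^ (l ^ (h - c))` for
arbitrarily large `h`, hence in `k` by (Y6), and `Pool.Agent.W277.UH.conj_of_cross` with `T = P` gives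
`ConjConst k p q d`. (`S_infP`, `S_rtP`, `S_normP`, `S_itP` may be assumed.) -/
def S_bhP : Prop :=
  ∀ (l d : ℕ) (k E : Type u) [Field k] [IsAlgClosed k] [Field E] [Algebra k E] [Fact l.Prime]
    [CharP k l] [CharP E l] (t : E) (G : Subgroup (E ≃ₐ[k] E)) [Fintype G], IsGal k t G →
    2 ≤ d → ∀ p q : E[X], p.natDegree ≤ d → q.natDegree = d → IsCoprime p q →
    ∀ P : Finset E, Stab p q P → 3 * d + 4 ≤ P.card → ¬ ConjConst k p q d →
    ∃ h : ℕ, Hgt l h d p q ∧ ∀ h', Hgt l h' d p q → h' ≤ h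

/-- (Y11) **Levels along orbits.** Here `p / q` has coefficients in `E ^ (l ^ h)` and is
`p₁ / q₁ (X ^ (l ^ e))`. Proof. First: `p₁`, `q₁` also have coefficients in `E ^ (l ^ h)`, hence in
`E ^ (l ^ (j + e))`, and `x ^ (l ^ e) = w ^ (l ^ (j + e))`, so the value is a quotient of elements of
`E ^ (l ^ (j + e))`. Second: let `E₁ = E ^ (l ^ (j + e + 1))` (a subfield), `v = x ^ (l ^ e)`. As
`x = w ^ (l ^ j)`, `v ^ l` is in `E₁`, but `v` is not (otherwise `x` would be in
`E ^ (l ^ (j + 1))`). So the minimal polynomial of `v` over `E₁` is `X ^ l - v ^ l = (X - v) ^ l`. It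
divides `p₁ - y q₁`, `y = p(x) / q(x)` in `E₁`, which has coefficients in `E₁` and vanishes at `v`. So
`p₁'(v) = y q₁'(v)`, and `wr p₁ q₁` at `v` is `p₁'(v) q₁(v) - p₁(v) q₁'(v) = 0`. -/
def S_jumpP : Prop :=
  ∀ (l h e j : ℕ) (E : Type u) [Field E] [Fact l.Prime] [CharP E l] (p₀ q₀ p₁ q₁ : E[X]),
    p₀.map (iterateFrobenius E l h) = expand E (l ^ e) p₁ →
    q₀.map (iterateFrobenius E l h) = expand E (l ^ e) q₁ → ∀ x : E,
    (q₀.map (iterateFrobenius E l h)).eval x ≠ 0 → (∃ w, x = w ^ l ^ j) →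
    (j + e ≤ h → ∃ v, (p₀.map (iterateFrobenius E l h)).eval x /
      (q₀.map (iterateFrobenius E l h)).eval x = v ^ l ^ (j + e)) ∧
    (j + e + 1 ≤ h → (∃ v, (p₀.map (iterateFrobenius E l h)).eval x /
      (q₀.map (iterateFrobenius E l h)).eval x = v ^ l ^ (j + e + 1)) →
      (¬ ∃ w, x = w ^ l ^ (j + 1)) → (wr p₁ q₁).eval (x ^ l ^ e) = 0)

/-- (Y12) **Two frames agree up to a bounded number of levels.** Proof. (V10) `S_ctP` with
`e₀ = 1`, `v = μ.α X + μ.β`, `w = μ.γ X + μ.δ`, the inner map `p₀ / q₀` and the outer map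
`p₁ / q₁`: the hypothesis of `S_ctP` is the identity in `Cj`. So the entries of `μ`, multiplied by a
constant, are in `E ^ (l ^ (K - c))`, and so is `μ.app (w ^ (l ^ K))`. -/
def S_tslP : Prop :=
  ∀ (l d : ℕ), l.Prime → 2 ≤ d → ∃ c : ℕ,
    ∀ (k E : Type u) [Field k] [Field E] [Algebra k E] [Fact l.Prime] [CharP E l]
    (τ : E →ₐ[k] PowerSeries E) (D : Derivation k E E), IsHT l τ D → ∀ (K : ℕ)
    (p₁ q₁ p₀ q₀ : E[X]) (μ : Mb E),
    RM d (p₁.map (iterateFrobenius E l K)) (q₁.map (iterateFrobenius E l K)) →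
    Ov l K d μ (p₁.map (iterateFrobenius E l K)) (q₁.map (iterateFrobenius E l K)) p₀ q₀ →
    ∀ x : E, Sub l K μ x → ∃ w, x = w ^ l ^ (K - c)

/-- (Y13) **Orbits of separable maps in a frame of maximal height.** The orbit is
`x 0, x 1, …` with exactly `n` different elements `x 0, …, x (n - 1)`. Let `c` be from (Y12),
`N₁` from (Y5) for `K' = c + 1`, `N₂` from (Y5) for `K' = 1`; `B = (2 d + 1) N₁ + N₂`. Proof. Write
`F^j` for the `j`-th power of Frobenius on coefficients, `f_j = p₀^{F^(h - j)} / q₀^{F^(h - j)}` for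
`j ≤ h` (so `f_0 = p / q`, `f_h = p₀ / q₀`, and `f_0` is the twist of `f_j` by `F^j`). If
`x i = z ^ (l ^ j)` with `j ≤ h` then `x (i + 1) = f_j(z) ^ (l ^ j)`. So the sets
`A_j = {i | x i ∈ E ^ (l ^ j)}`, `j ≤ h`, are upward closed, and for `i` in `A_j` the roots
`z_i`, `z_i ^ (l ^ j) = x i`, form an orbit of `f_j`, contained in a finite stable set `P_j` (these
`z_i`). By (Y9) third clause (with the identity as frame) no `f_j` is `ConjConst`. (1) `A_h` contains
fewer than `N₂` indices `i < n`: otherwise (Y5) with `K' = 1` for `f_h` gives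
`Ov l 1 d μ p₀ q₀ …`, and by (Y9) the height of `p / q` is at least `h + 1`. (2) For `j < h` let
`B_j = A_j \ A_{j+1}`, a set of consecutive indices. It contains fewer than `N₁` indices `i < n`:
otherwise (Y5) with `K' = c + 1` for `f_j`, `P_j` and the segment of the `z_i`, `i` in `B_j`, gives `μ`
with `Ov l K' d μ f_j …` and `i` in `B_j` with `Sub l K' μ z_i`. By (Y9) the height of `p / q` is at
least `K' + j`, so `K' ≤ h - j`, and `f_j` has coefficients in `E ^ (l ^ K')`; by (Y12)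
`z_i` is in `E ^ (l ^ (K' - c)) = E ^ l`, so `x i` is in `E ^ (l ^ (j + 1))`, a contradiction. (3) If
`j < j' ≤ h` and `B_j` and `A_{j'}`, `j' > j`, both contain indices, let `i` be the last index of
`B_j`; `x (i + 1)` is in `E ^ (l ^ (j + 1))` and (Y11) with `e = 0` gives `wr p q (x i) = 0`. These
`x i` are different for different `j`, so there are at most `2 d` such `j` (the degree of `wr p q` is at
most `2 d`), and at most `2 d + 1` of the `B_j` are not empty. (`S_dichP`, `S_ovP`, `S_jumpP`,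
`S_tslP`, `S_hsP` may be assumed.) -/
def S_sepP : Prop :=
  ∀ (l d ν : ℕ), l.Prime → 2 ≤ d → 1 ≤ ν → ∃ B : ℕ,
    ∀ (k E : Type u) [Field k] [IsAlgClosed k] [Field E] [Algebra k E] [Fact l.Prime]
    [CharP k l] [CharP E l] (t : E) (G : Subgroup (E ≃ₐ[k] E)) [Fintype G], IsGal k t G →
    Fintype.card G = ν → ∀ (h : ℕ) (p q p₀ q₀ : E[X]), p = p₀.map (iterateFrobenius E l h) →
    q = q₀.map (iterateFrobenius E l h) → p.natDegree ≤ d → q.natDegree = d → IsCoprime p q →
    ¬ ConjConst k p q d → (∀ h', Hgt l h' d p q → h' ≤ h) → wr p q ≠ 0 →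
    ∀ (x : ℕ → E) (n : ℕ), (∀ i, q.eval (x i) ≠ 0 ∧ x (i + 1) = p.eval (x i) / q.eval (x i)) →
    (∀ i < n, ∀ j < n, x i = x j → i = j) → (∃ i < n, x n = x i) → n ≤ B

/-- (Y14) **Orbits of inseparable maps in a frame of maximal height.** Proof. With `f_j`, `A_j` as in
(Y13). Let `p = expand (l ^ e) p₁`, `q = expand (l ^ e) q₁`, `wr p₁ q₁ ≠ 0` by (N4) `S_insP`, so
`1 ≤ e`, `l ^ e ≤ d` (`wr p q = 0`). By (Y11) first clause, if `x i` is in `E ^ (l ^ j)` then
`x (i + 1)` is in `E ^ (l ^ (min (j + e) h))`. So the levels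
`λ_i = max {j ≤ h | x i ∈ E ^ (l ^ j)}` satisfy `λ_{i+1} ≥ min (λ_i + e) h`. As in (Y13) fewer than
`N₂` of the `i < n` have level `h`. The others are `0, 1, …, m - 1` for some `m`. For `i + 1 < m` one has
`λ_{i+1} ≥ λ_i + e`, and if `λ_{i+1} > λ_i + e` then (Y11) second clause gives
`(wr p₁ q₁)((x i) ^ (l ^ e)) = 0`, which happens for at most `2 d` indices. Choose, in this order:
`b` from (Y4) `S_capP`; `C₀ = b ^ ν`; `J`, `r` from (Y4), `a = J l ^ r b`; `N'` from (Y3) `S_selTP` for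
`ν`, `b`, `a`, `r`, `e`; `Wt = l ^ (e N')`; `N_B`, `j₁` from (Y4); `n_W = N' + j₁ + N_B + 1` (take the
maximum over the finitely many `e` with `l ^ e ≤ d`). If `m ≥ (2 d + 2) n_W` there are `n_W` consecutive
indices `i₀, …, i₀ + n_W - 1 < m` with `λ_{i₀ + i} = λ_{i₀} + e i`. Let `j = λ_{i₀} < h` and let
`z_i`, `z_i ^ (l ^ j) = x (i₀ + i)`, be the orbit of `f_j`, `P_j` the (finite, stable) set of the
`z_i`, `i ≥ 0`. For `i < n_W` the level of `z_i` is exactly `e i`: `z_i = w ^ (l ^ (e i))` with `w`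
not an `l`-th power (as `λ_{i₀+i} < h`), that is `D w ≠ 0` for every `D` as in `IsHT`. By (Y3), for all
`t'`, `τ`, `D`, there are rows among `z_0, …, z_{N'-1}` with order at most
`b ^ ν l ^ (e N') (a + 1) (b + 1) = C₀ N Wt`. The set of the `z_i`, `j₁ ≤ i < n_W`, has at least `N_B`
elements, all in `E ^ (l ^ j₁)` (`e i ≥ j₁`). So (Y4) for `f_j`, `P_j` gives a contradiction, hence
`m < (2 d + 2) n_W` and `n ≤ (2 d + 2) n_W + N₂`. (`S_dichP`, `S_ovP`, `S_jumpP`, `S_insP`,
`S_selTP`, `S_capP` may be assumed.) -/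
def S_infsP : Prop :=
  ∀ (l d ν : ℕ), l.Prime → 2 ≤ d → 1 ≤ ν → ∃ B : ℕ,
    ∀ (k E : Type u) [Field k] [IsAlgClosed k] [Field E] [Algebra k E] [Fact l.Prime]
    [CharP k l] [CharP E l] (t : E) (G : Subgroup (E ≃ₐ[k] E)) [Fintype G], IsGal k t G →
    Fintype.card G = ν → ∀ (h : ℕ) (p q p₀ q₀ : E[X]), p = p₀.map (iterateFrobenius E l h) →
    q = q₀.map (iterateFrobenius E l h) → p.natDegree ≤ d → q.natDegree = d → IsCoprime p q →
    ¬ ConjConst k p q d → (∀ h', Hgt l h' d p q → h' ≤ h) → wr p q = 0 →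
    ∀ (x : ℕ → E) (n : ℕ), (∀ i, q.eval (x i) ≠ 0 ∧ x (i + 1) = p.eval (x i) / q.eval (x i)) →
    (∀ i < n, ∀ j < n, x i = x j → i = j) → (∃ i < n, x n = x i) → n ≤ B

/-- (Y15) **The bound for orbits in characteristic `l`.** Proof. For every `ν ≤ n` let `B_ν` be the
maximum of the bounds of (Y13), (Y14), `B` the maximum of the `B_ν` and `3 d + 4`. If
`|P| ≥ 3 d + 4`: (Y10) gives the maximal height `h` with `Ov l h d μ p q p₀ q₀`, (Y8) a better frame
`μ'`, `p₁`, `q₁`, `P'`. Let `p' = p₁.map (iterateFrobenius E l h)`, `q'` similarly. The height of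
`p' / q'` is at most `h` by (Y9) second clause, `p' / q'` is not `ConjConst` by (Y9) third clause
(applied with `h = 0` in place of `h` and `p'`, `q'` in place of `p₀`, `q₀`; note
`iterateFrobenius E l 0` is the identity). `μ'` maps `P'` bijectively onto `P` and conjugates the
two maps, so `P'` is also the forward orbit of a point; the orbit has exactly `|P'|` different elements
`x 0, …, x (|P'| - 1)` and `x |P'|` is one of them. (Y13) or (Y14) gives `|P| = |P'| ≤ B`.
(`S_bhP`, `S_normP`, `S_ovP`, `S_sepP`, `S_infsP` may be assumed.) -/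
def S_orbP : Prop :=
  ∀ (l n d : ℕ), l.Prime → 2 ≤ d → ∃ B : ℕ,
    ∀ (k E : Type u) [Field k] [IsAlgClosed k] [Field E] [Algebra k E] [Fact l.Prime]
    [CharP k l] [CharP E l] (t : E) (G : Subgroup (E ≃ₐ[k] E)) [Fintype G], IsGal k t G →
    Fintype.card G ≤ n → ∀ p q : E[X], p.natDegree ≤ d → q.natDegree = d → IsCoprime p q →
    ∀ P : Finset E, Stab p q P →
    (∃ x₀ ∈ P, ∀ z ∈ P, ∃ i : ℕ, z = (fun y => p.eval y / q.eval y)^[i] x₀) →
    ¬ ConjConst k p q d → P.card ≤ B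

end Pool.Agent.Q41.SP
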