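import Pool.Agent.Q41.SP.Defs
import Pool.Agent.Q41.SU.Stm1
import Pool.Agent.Q41.SU.Stm2
import Pool.Agent.Q41.SU.Stm3

/-!
# Statements, part 1: the twisted main inequality
-/

namespace Pool.Agent.Q41.SP

open Finset Polynomial
open Pool.Agent.Q41.SU

universe u

/-- (P1) **The cluster lemma**, different digits with the same classes. It is `S_clw` of
`Q41/SU/Stm2.lean` (proof `Pool.Agent.Q144.SU`, file `Q144/SU/Clu.lean` or near it), where the digits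
`c'` of the second coordinate may differ from the digits `c` of the first, but `c' i` is a function
of `c i`. Proof. The same: the class of `l` at level `i` is given by `c_{0,l}, …, c_{i-1,l}`, and
`x_l = A_{cl l} + ε_i B_l`, `y_l = A'_{cl l} + ε'_i B'_l` with `A'` a function of the class because
`c'_{j,l}` depends only on `c_{j,l}`. -/
def S_clwP : Prop :=
  ∀ (Λ : Type u) [NormedField Λ] [IsUltrametricDist Λ] (a b M w₁ w₂ : ℕ) (θ : ℝ) (_ : 0 ≤ θ)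
    (ϖ ϖ' : Λ) (_ : ‖ϖ‖ ≤ Real.exp (-(w₁ * θ))) (_ : ‖ϖ'‖ ≤ Real.exp (-(w₂ * θ)))
    (c c' : ℕ → II a b → Λ) (η η' : II a b → Λ) (_ : ∀ i l, ‖c i l‖ ≤ 1)
    (_ : ∀ i l, ‖c' i l‖ ≤ 1) (_ : ∀ l, ‖η l‖ ≤ 1) (_ : ∀ l, ‖η' l‖ ≤ 1)
    (_ : ∀ i l m, c i l = c i m → c' i l = c' i m),
    ‖bd a b (fun l => ∑ i ∈ range M, c i l * ϖ ^ i + ϖ ^ M * η l)
      (fun l => ∑ i ∈ range M, c' i l * ϖ' ^ i + ϖ' ^ M * η' l)‖ ≤
      Real.exp (-(θ * ∑ i ∈ Icc 1 M, ∑ l, (phi w₁ w₂ a b (dcl c i l) : ℝ) / (dcl c i l : ℝ)))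

/-- (P2) **Bounds at places for a ring homomorphism `Φ`.** These are `S_plw`, `S_pli` and the second
half of `S_plv` of `Q41/SU/Stm2.lean` (proofs in `Q24/SU/Pl.lean`), where `Φ : Λ →+* Λ` is only a
ring homomorphism with `‖Φ x‖ = ‖x‖ ^ Θ` (for instance a power of Frobenius composed with a
`k`-algebra homomorphism). Proof. The same, from (P1) and `S_cli`, `S_dig`: apply `ι` and `Φ ∘ ι` to
the digit expansions; the digits of the second coordinate are `Φ (c_{i,l})`, of norm at most `1`,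
and `Φ` is injective, so the classes are the same. -/
def S_plP : Prop :=
  ∀ (k E Λ : Type u) [Field k] [Field E] [Algebra k E] [NormedField Λ] [IsUltrametricDist Λ]
    [Algebra k Λ] (_ : ∀ c : k, c ≠ 0 → ‖algebraMap k Λ c‖ = 1) (ι : E →ₐ[k] Λ) (e : ℕ)
    (u : E → ℤ) (_ : IsPl k ι e u) (ι' : E →ₐ[k] Λ) (e' : ℕ) (u' : E → ℤ) (_ : IsPl k ι' e' u')
    (a b Θ M : ℕ) (z z' : II a b → E) (_ : Function.Injective z) (_ : Function.Injective z')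
    (_ : ∀ l, ‖ι (z l)‖ ≤ 1) (_ : ∀ l, ‖ι' (z' l)‖ ≤ 1) (Φ : Λ →+* Λ)
    (_ : ∀ x, ‖Φ x‖ = ‖x‖ ^ Θ),
    ‖bd a b (fun l => ι (z l)) (fun l => Φ (ι (z l)))‖ ≤
      Real.exp (-(LS (fun n => (phi 1 Θ a b n : ℝ)) M (fun l m => u (z l - z m)) / e)) ∧
    ‖bd a b (fun l => ι (z l)) (fun l => Φ (ι' (z' l)))‖ ≤
      Real.exp (-(LS (fun n => (phi 1 0 a b n : ℝ)) M (fun l m => u (z l - z m)) / e +
        Θ * (LS (fun n => (phi 0 1 a b n : ℝ)) M (fun l m => u' (z' l - z' m)) / e'))) ∧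
    (∀ y : II a b → Λ, (∀ l, ‖y l‖ ≤ 1) →
      ‖bd a b (fun l => ι (z l)) y‖ ≤
        Real.exp (-(LS (fun n => (phi 1 0 a b n : ℝ)) M (fun l m => u (z l - z m)) / e)) ∧
      ‖bd a b y (fun l => Φ (ι (z l)))‖ ≤
        Real.exp (-(Θ * (LS (fun n => (phi 0 1 a b n : ℝ)) M (fun l m => u (z l - z m)) / e))))

/-- (P3) **The four bounds at a place for original coordinates**, for a ring homomorphism `Φ`. It is
`S_pair` of `Q41/SU/Stm3.lean` (proof `Q24/SU/Pair.lean`), with `Φ : Λ →+* Λ`, and in the second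
bound `Φ (ι (x l))` in place of `ι (x l)`. Proof. The same, from `S_covn` and (P2). -/
def S_pairP : Prop :=
  ∀ (k E Λ : Type u) [Field k] [Field E] [Algebra k E] [NormedField Λ] [IsUltrametricDist Λ]
    [Algebra k Λ] (_ : ∀ c : k, c ≠ 0 → ‖algebraMap k Λ c‖ = 1) (ι : E →ₐ[k] Λ) (e : ℕ)
    (u : E → ℤ) (_ : IsPl k ι e u) (ι' : E →ₐ[k] Λ) (e' : ℕ) (u' : E → ℤ) (_ : IsPl k ι' e' u')
    (a b Θ M : ℕ) (_ : 1 ≤ a + b) (_ : 1 ≤ Θ) (x x' : II a b → E) (_ : Function.Injective x)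
    (_ : Function.Injective x') (m m' : Mb E) (_ : m.det ≠ 0) (_ : m'.det ≠ 0)
    (_ : ∀ l, m.den (x l) ≠ 0) (_ : ∀ l, m'.den (x' l) ≠ 0) (_ : ∀ l, ‖ι (m.app (x l))‖ ≤ 1)
    (_ : ∀ l, ‖ι' (m'.app (x' l))‖ ≤ 1) (Φ : Λ →+* Λ) (_ : ∀ x, ‖Φ x‖ = ‖x‖ ^ Θ),
    (∀ y : II a b → Λ, (∀ l, ‖y l‖ ≤ 1) →
      ‖bd a b (fun l => ι (x l)) y‖ ≤ Real.exp (-((a : ℝ) / (2 * ((a + 1) * (b + 1) - 1)) *
        cvt e u x (fun l => m.app (x l)) +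
        LS (fun n => (phi 1 0 a b n : ℝ)) M (fun l j => u (m.app (x l) - m.app (x j))) / e)) ∧
      ‖bd a b y (fun l => Φ (ι (x l)))‖ ≤ Real.exp (-(Θ * ((b : ℝ) /
        (2 * ((a + 1) * (b + 1) - 1)) * cvt e u x (fun l => m.app (x l)) +
        LS (fun n => (phi 0 1 a b n : ℝ)) M (fun l j => u (m.app (x l) - m.app (x j))) / e)))) ∧
    ‖bd a b (fun l => ι (x l)) (fun l => Φ (ι' (x' l)))‖ ≤
      Real.exp (-((a : ℝ) / (2 * ((a + 1) * (b + 1) - 1)) * cvt e u x (fun l => m.app (x l)) +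
        Θ * ((b : ℝ) / (2 * ((a + 1) * (b + 1) - 1)) * cvt e' u' x' (fun l => m'.app (x' l))) +
        LS (fun n => (phi 1 0 a b n : ℝ)) M (fun l j => u (m.app (x l) - m.app (x j))) / e +
        Θ * (LS (fun n => (phi 0 1 a b n : ℝ)) M
          (fun l j => u' (m'.app (x' l) - m'.app (x' j))) / e'))) ∧
    ‖bd a b (fun l => ι (x l)) (fun l => Φ (ι (x l)))‖ ≤
      Real.exp (-((a : ℝ) / (2 * ((a + 1) * (b + 1) - 1)) * cvt e u x (fun l => m.app (x l)) +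
        Θ * ((b : ℝ) / (2 * ((a + 1) * (b + 1) - 1)) * cvt e u x (fun l => m.app (x l))) +
        LS (fun n => (phi 1 Θ a b n : ℝ)) M (fun l j => u (m.app (x l) - m.app (x j))) / e))

/-- (P4) **The twisted norm polynomial.** `k` is algebraically closed of characteristic `l`,
`q = l ^ r`. Proof. Let `E'` be the field `E` with the `k`-algebra structure
`c ↦ algebraMap k E (c ^ (1 / q))` (`k` is perfect). A ring homomorphism `β : E → A` with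
`β c = c ^ q` for constants `c` is a `k`-algebra homomorphism `E' → A`. The product `N` over
`(g, h)` of the determinants `bd a b (g x ⊗ 1) (1 ⊗ h x)` in `E ⊗ E'` is in the span of the `f ⊗ f'`
with `f`, `f'` in the ring `R` of the elements `y` with `pp.Int G S₀ y`, and it is invariant under
`G × G`, so (as in `S_desc`, `Q41/SU/Stm3.lean`, for the two spaces `E`, `E'`) it is a finite sum of
`f ⊗ f'` with `f`, `f'` in `R` fixed by `G`. By `S_ratp` (`Q24/SU/Ratp.lean`)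
`f A(t) ^ M = P(t)`, `f' A(t) ^ M = P'(t)` in `E`, of degrees at most `M |S₀|`, `A = ∏ (X - t₀)`.
Let `P''` be `P'` with the coefficients raised to the power `q`; then `β (P'(t)) = P''(β t)` and
`β (A(t)) = ∏ (β t - t₀ ^ q)`. So `F = ∑ P(T₁) P''(T₂)` has the property (apply the homomorphism
`E ⊗ E' → A` given by `α`, `β`). The untwisted case is proved in `Q24/SU/Ten.lean`, `Q24/SU/Ratp.lean`.
(`S_desc`, `S_ratp` may be assumed.) -/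
def S_tenP : Prop :=
  ∀ (k E Λ : Type u) [Field k] [IsAlgClosed k] [Field E] [Algebra k E] [NormedField Λ]
    [IsUltrametricDist Λ] [Algebra k Λ] (t : E) (s : Λ) (G : Subgroup (E ≃ₐ[k] E)) [Fintype G],
    IsAmb k Λ s → IsGal k t G → ∀ (pp : PlSys k E Λ t s) (S₀ : Finset k) (a b l r : ℕ)
    [Fact l.Prime] [CharP k l] (x : II a b → E), (∀ i, pp.Int G S₀ (x i)) →
    ∃ M₀ : ℕ, ∀ M ≥ M₀, ∃ F : k[X][X], F.natDegree ≤ M * S₀.card ∧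
      (∀ i, (F.coeff i).natDegree ≤ M * S₀.card) ∧
      ∀ (A : Type u) [CommRing A] [Algebra k A] (α : E →ₐ[k] A) (β : E →+* A),
        (∀ c : k, β (algebraMap k E c) = algebraMap k A (c ^ l ^ r)) →
        ev F (α t) (β t) = (∏ t₀ ∈ S₀, (α t - algebraMap k A t₀)) ^ M *
          (∏ t₀ ∈ S₀, (β t - algebraMap k A (t₀ ^ l ^ r))) ^ M *
          ∏ g : G, ∏ h : G, bd a b (fun i => α ((g : E ≃ₐ[k] E) (x i)))
            (fun i => β ((h : E ≃ₐ[k] E) (x i)))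

/-- (P5) **Vertical and horizontal lines.** `q = l ^ r`. Proof. Let `F ≠ 0`,
`F = (T₁ - t₀) ^ m F'` with `F'(t₀, T₂) ≠ 0`. Then
`F(t₀ + s, (c' + s) ^ q) = s ^ m F'(t₀ + s, (c' + s) ^ q)` and `F'(t₀, c' ^ q) ≠ 0` for all but
finitely many `c'` (`c' ↦ c' ^ q` is injective), so `v ≤ m`. Second: `F = (T₂ - t₀ ^ q) ^ m F'` with
`F'(T₁, t₀ ^ q) ≠ 0`; `(t₀ + s) ^ q = t₀ ^ q + s ^ q`, so
`F(c' + s, (t₀ + s) ^ q) = s ^ (q m) F'(c' + s, (t₀ + s) ^ q)`, and the last factor has nonzero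
constant coefficient for all but finitely many `c'`, so `w ≤ q m` and `q v < w + q ≤ q (m + 1)`. -/
def S_evP : Prop :=
  ∀ (k : Type u) [Field k] [Infinite k] (l r : ℕ) [Fact l.Prime] [CharP k l] (F : k[X][X])
    (t₀ : k) (v w : ℕ),
    ({c' : k | X ^ v ∣ ev F (C t₀ + X) ((C c' + X) ^ l ^ r)}.Infinite → C ((X - C t₀) ^ v) ∣ F) ∧
    ({c' : k | X ^ w ∣ ev F (C c' + X) ((C t₀ + X) ^ l ^ r)}.Infinite → l ^ r * v < w + l ^ r →
      (X - C (C (t₀ ^ l ^ r))) ^ v ∣ F)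

/-- (P6) **The counting lemma on the curve `T₂ = T₁ ^ q`**, `q = l ^ r`, `Θ = J q`. Proof. Let
`c₀ ≤ c` be the exact power of `T₂ - T₁ ^ q` dividing `F`.
`F = ∏ (T₁ - t₀) ^ v(t₀) ∏ (T₂ - t₀ ^ q) ^ h(t₀) (T₂ - T₁ ^ q) ^ c₀ F₁` (products over `S₀`; the
factors are coprime, as `t₀ ↦ t₀ ^ q` is injective) with `F₁(T, T ^ q) ≠ 0`, and the degrees of `F₁`
in `T₁`, `T₂` are at most `D₁ - ∑ v - q c₀`, `D₂ - ∑ h - c₀`. Let `t₀` be in `S`,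
`w = W - v - Θ h - q c₀`. As `J ≥ 2`, the order of `F(t₀ + s, t₀ ^ q + c' s ^ Θ)` in `s` is
`v + Θ h + q c₀` plus that of `F₁(t₀ + s, t₀ ^ q + c' s ^ Θ)`, for `c' ≠ 0` (note
`(t₀ + s) ^ q = t₀ ^ q + s ^ q`). Write `F₁ = ∑ f_{ij} (T₁ - t₀) ^ i (T₂ - t₀ ^ q) ^ j`. The
coefficient of `s ^ m` in `F₁(t₀ + s, t₀ ^ q + c' s ^ Θ)` is `∑_{i + Θ j = m} f_{ij} c' ^ j`; for
`m < w` it vanishes for infinitely many `c'`, so `f_{ij} = 0` if `i + Θ j < w`. Hence `f_{ij} ≠ 0`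
implies `J (i + q j) ≥ w`, so that the order at `t₀` of `F₁(T, T ^ q)` is at least `w / J`. The sum
over `S` is at most the degree of `F₁(T, T ^ q)`, which is at most
`D₁ - ∑ v - q c₀ + q (D₂ - ∑ h - c₀)`. (`S_count` of `Q41/SU/Stm3.lean` is the case `q = 1`, proof
`Q153/SU/CountT.lean`.) -/
def S_countP : Prop :=
  ∀ (k : Type u) [Field k] [Infinite k] (l r : ℕ) [Fact l.Prime] [CharP k l] (F : k[X][X])
    (_ : F ≠ 0) (D₁ D₂ : ℕ)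
    (_ : F.natDegree ≤ D₂) (_ : ∀ i, (F.coeff i).natDegree ≤ D₁) (S S₀ : Finset k) (_ : S ⊆ S₀)
    (v h W : k → ℕ) (J c : ℕ) (_ : 2 ≤ J) (_ : ∀ t₀ ∈ S₀, C ((X - C t₀) ^ v t₀) ∣ F)
    (_ : ∀ t₀ ∈ S₀, (X - C (C (t₀ ^ l ^ r))) ^ h t₀ ∣ F)
    (_ : ¬ (X - C (X ^ l ^ r)) ^ (c + 1) ∣ F)
    (_ : ∀ t₀ ∈ S, {c' : k | ¬ X ^ W t₀ ∣
      ev F (C t₀ + X) (C (t₀ ^ l ^ r) + C c' * X ^ (J * l ^ r))}.Finite),
    ∑ t₀ ∈ S, ((W t₀ : ℤ) - v t₀ - J * l ^ r * h t₀ - l ^ r * c) ≤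
      J * ((D₁ : ℤ) + l ^ r * D₂ - ∑ t₀ ∈ S₀, (v t₀ : ℤ) - l ^ r * ∑ t₀ ∈ S₀, (h t₀ : ℤ))

/-- (P7) **The twisted main inequality.** `ν = |G|`, `N = (a + 1) (b + 1)`, `q = l ^ r`, `Θ = J q`.
The case `q = 1` is `S_mi` of `Q41/SU/Stm3.lean`, proof `Pool.Agent.Q162.SU.mi` in `Q162/SU/T8.lean`;
adapt this file. Proof. Let `F`, `M'` (large) be as in (P4). Vertical: `α = ι_{t₀}` for `t₀` in
`S₀`, `β` the composition of `ι_{c'}` (`c'` outside `S₀`) with `x ↦ x ^ q` (so `α t = t₀ + s`,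
`β t = (c' + s) ^ q`; the `β (h x_l)` are integral): by (P3) the norm of `F(t₀ + s, (c' + s) ^ q)` is
at most `exp (-(M' + V))`, `V(t₀) = ν ∑_g (a / (2 (N - 1)) cvt_g + LS_g(phi 1 0) / e)`; so `S_npol`
and (P5) give the divisibility of `F` by `(T₁ - t₀) ^ v`, `v = ⌈M' + V⌉` (nonnegative as `M'` is
large). Horizontal: `α = ι_{c'}`, `β = (ι_{t₀}) ^ q`: the norm is at most `exp (-q (M' + H))`,
`H(t₀) = ν ∑_g (b / (2 (N - 1)) cvt_g + LS_g(phi 0 1) / e)`, so by (P5) `F` is divisible by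
`(T₂ - t₀ ^ q) ^ h`, `h = ⌈M' + H⌉`. Weighted, for `t₀` in `S` and any `c' ≠ 0`: `α = ι_{t₀}`, `β` the
composition of `ι_{t₀}`, `Φ` with `Φ s = c'' s ^ J`, `c'' ^ q = c'`, and `x ↦ x ^ q` (so
`β t = t₀ ^ q + c' s ^ Θ`; norms are raised to the power `Θ`): by (P3), for the pairs `(g, g)` the
last bound and for `g ≠ h` the third, the norm is at most `exp (-(M' (1 + Θ) + W₀))` with
`W₀ = V + Θ H + ∑_g LS_g(gam) / e`; `W = ⌈M' (1 + Θ) + W₀⌉`. Diagonal: evaluate at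
`α = C : E → E[[δ]]`, `β = tw l r τ`: `β t = t ^ q + δ`, so `F(t, t ^ q + δ)` is
`A(t) ^ M' (∏ (t ^ q - t₀ ^ q + δ)) ^ M'` (a unit) times the product over `(g, h)` of
`bd (C (g x)) (tw (h x))`, which is the image under `g` of `bd (C x) (tw (g⁻¹ h x))`, of order at
most `c`; so the order of `F(t, t ^ q + δ)` is at most `ν² c`, `F ≠ 0` and
`(T₂ - T₁ ^ q) ^ (ν² c + 1)` does not divide `F`. Now (P6) with `D₁ = D₂ = M' |S₀|` and `ν² c` in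
place of `c`: `W - v - Θ h ≥ ∑_g LS_g(gam) / e - 1 - Θ`, and `D₁ - ∑ v ≤ -∑ V`,
`D₂ - ∑ h ≤ -∑ H`. The sum over `S₀` and `g` of `∑_{l ≠ j} u(g(x_l - x_j)) / e` is zero by the
product formula (`S_prod`), and `∑_{l ≠ j} u(z_l - z_j) = LS(n (n - 1))` by `S_lsq`, so
`-∑ V - q ∑ H = ν ∑_{S₀} ∑_g (LS_g(K1) + q LS_g(K2)) / e`. (`S_npol`, `S_tenP`, `S_evP`, `S_countP`,
`S_pairP`, `S_prod`, `S_lsq` may be assumed.) -/
def S_miP : Prop :=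
  ∀ (k E Λ : Type u) [Field k] [IsAlgClosed k] [Field E] [Algebra k E] [NormedField Λ]
    [IsUltrametricDist Λ] [Algebra k Λ] (t : E) (s : Λ) (G : Subgroup (E ≃ₐ[k] E)) [Fintype G],
    IsAmb k Λ s → IsGal k t G → ∀ (pp : PlSys k E Λ t s) (S S₀ : Finset k) (_ : S ⊆ S₀)
    (a b J l r M c : ℕ) [Fact l.Prime] [CharP k l] [CharP E l] (_ : 1 ≤ a) (_ : 1 ≤ b) (_ : 2 ≤ J)
    (x : II a b → E) (_ : Function.Injective x) (_ : ∀ i, pp.Int G S₀ (x i))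
    (_ : ∀ i j, i ≠ j → pp.Unit G S₀ (x i - x j)) (m : k → G → Mb E)
    (_ : ∀ t₀ ∈ S₀, ∀ g, (m t₀ g).det ≠ 0) (_ : ∀ t₀ ∈ S₀, ∀ g i, (m t₀ g).den (x i) ≠ 0)
    (_ : ∀ t₀ ∈ S₀, ∀ (g : G) i, ‖pp.ι t₀ ((g : E ≃ₐ[k] E) ((m t₀ g).app (x i)))‖ ≤ 1)
    (_ : ∀ t₀ ∈ S₀, ∀ (g : G) i j, i ≠ j →
      pp.u t₀ ((g : E ≃ₐ[k] E) ((m t₀ g).app (x i) - (m t₀ g).app (x j))) ≤ M)
    (τ : E →ₐ[k] PowerSeries E) (_ : τ t = PowerSeries.C t + PowerSeries.X)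
    (_ : ∀ g ∈ G, ∀ y, τ (g y) = PowerSeries.map ((g : E →ₐ[k] E) : E →+* E) (τ y))
    (_ : ∀ h ∈ G, ¬ (PowerSeries.X : PowerSeries E) ^ (c + 1) ∣
      bd a b (fun i => PowerSeries.C (x i)) (fun i => tw l r τ (h (x i)))),
    ∑ t₀ ∈ S, ∑ g : G, LS (gam a b (J * l ^ r)) M (fun i j => pp.u t₀ ((g : E ≃ₐ[k] E)
        ((m t₀ g).app (x i) - (m t₀ g).app (x j)))) / pp.e t₀ ≤
      (S.card : ℝ) * ((l : ℝ) ^ r * ((Fintype.card G : ℝ) ^ 2 * c) + 1 + J * (l : ℝ) ^ r) +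
        J * Fintype.card G * ∑ t₀ ∈ S₀, ∑ g : G, (LS (K1 a b) M (fun i j =>
          pp.u t₀ ((g : E ≃ₐ[k] E) ((m t₀ g).app (x i) - (m t₀ g).app (x j)))) +
          (l : ℝ) ^ r * LS (K2 a b) M (fun i j =>
          pp.u t₀ ((g : E ≃ₐ[k] E) ((m t₀ g).app (x i) - (m t₀ g).app (x j))))) / pp.e t₀

end Pool.Agent.Q41.SP
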