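import Pool.Agent.Q41.SU.Stm4

/-!
# Strong uniform boundedness in positive characteristic: definitions

`E` is a field of characteristic `l`, `q = l ^ r`. A Taylor homomorphism is a `k`-algebra
homomorphism `τ : E → E[[δ]]` (`δ` is the variable `X` of the power series) with
`τ x = x + D(x) δ + …`, such that the elements with `D x = 0` are the `l`-th powers. The twisted
map `tw l r τ : E → E[[δ]]` is `x ↦ x ^ q + D(x) ^ q δ + …`, the coefficients of `τ x` raised to the
power `q`; on `t` (with `τ t = t + δ`) it is `t ^ q + δ`.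
-/

namespace Pool.Agent.Q41.SP

open Finset Polynomial
open Pool.Agent.Q41.SU

universe u

/-- `τ` is a Taylor homomorphism with derivation `D` -/
structure IsHT (l : ℕ) {k E : Type u} [Field k] [Field E] [Algebra k E]
    (τ : E →ₐ[k] PowerSeries E) (D : Derivation k E E) : Prop where
  const : ∀ x, PowerSeries.constantCoeff (τ x) = x
  der : ∀ x, D x = PowerSeries.coeff 1 (τ x)
  ker : ∀ x, D x = 0 → ∃ y, x = y ^ l

/-- the twisted Taylor homomorphism: the coefficients are raised to the power `l ^ r` -/
noncomputable def tw (l r : ℕ) {k E : Type u} [Field k] [Field E] [Algebra k E] [ExpChar E l]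
    (τ : E →ₐ[k] PowerSeries E) : E →+* PowerSeries E :=
  (PowerSeries.map (iterateFrobenius E l r)).comp (τ : E →+* PowerSeries E)

/-- the first loss function -/
noncomputable def K1 (a b n : ℕ) : ℝ :=
  (a : ℝ) / (2 * (((a : ℝ) + 1) * (b + 1) - 1)) * (n * ((n : ℝ) - 1)) - phi 1 0 a b n

/-- the second loss function -/
noncomputable def K2 (a b n : ℕ) : ℝ :=
  (b : ℝ) / (2 * (((a : ℝ) + 1) * (b + 1) - 1)) * (n * ((n : ℝ) - 1)) - phi 0 1 a b n

end Pool.Agent.Q41.SP
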