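import Pool.Agent.Q41.SP.Defs
import Pool.Agent.Q41.SU.Defs2

/-!
# Definitions, part 2: relations

`PowerSeries E` has the variable `δ` (written `PowerSeries.X`). A relation is a polynomial `G` in
`(PowerSeries E)[X][X]` with inner variable `X` and outer variable `Y`; it is evaluated at `x` in `E`
and `y` in `PowerSeries E`.
-/

namespace Pool.Agent.Q41.SP

open Finset Polynomial
open Pool.Agent.Q41.SU

universe u

/-- degree at most `β` in the outer variable, at most `H` in the inner variable -/
def Dg {A : Type*} [Semiring A] (β H : ℕ) (G : A[X][X]) : Prop :=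
  G.natDegree ≤ β ∧ ∀ i, (G.coeff i).natDegree ≤ H

variable {E : Type*} [Field E]

/-- the reduction modulo `δ` -/
noncomputable def red (G : (PowerSeries E)[X][X]) : E[X][X] :=
  G.map (mapRingHom PowerSeries.constantCoeff)

/-- all the coefficients are divisible by `δ ^ M` -/
def Dv (M : ℕ) (G : (PowerSeries E)[X][X]) : Prop :=
  ∀ i j, (PowerSeries.X : PowerSeries E) ^ M ∣ (G.coeff i).coeff j

/-- the value at `(x, y)` is divisible by `δ ^ M` -/
def Va (M : ℕ) (G : (PowerSeries E)[X][X]) (x : E) (y : PowerSeries E) : Prop :=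
  (PowerSeries.X : PowerSeries E) ^ M ∣ G.evalEval (PowerSeries.C x) y

/-- `p / q` is a rational function of degree `d` in lowest terms -/
structure RM (d : ℕ) (p q : E[X]) : Prop where
  co : IsCoprime p q
  deg : max p.natDegree q.natDegree = d

/-- `x 0, …, x (n - 1)` is an injective segment of an orbit of `p / q` in `E` -/
structure Seg (p q : E[X]) (n : ℕ) (x : ℕ → E) : Prop where
  inj : ∀ i < n, ∀ j < n, x i = x j → i = j
  step : ∀ i, i + 1 < n → q.eval (x i) ≠ 0 ∧ x (i + 1) = p.eval (x i) / q.eval (x i)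

/-- the homogenisation over a commutative ring -/
noncomputable def hcr {A : Type*} [CommRing A] (d : ℕ) (g u v : A[X]) : A[X] :=
  ∑ i ∈ range (d + 1), C (g.coeff i) * u ^ i * v ^ (d - i)

/-- the pull-back `Q(X) ^ H Q'(V) ^ β G(P(X) / Q(X), P'(V) / Q'(V))` of `G` (of degrees `β`, `H`);
the outer variable is now `V` -/
noncomputable def nv (β H : ℕ) (P Q : E[X]) (P' Q' : (PowerSeries E)[X])
    (G : (PowerSeries E)[X][X]) : (PowerSeries E)[X][X] :=
  ∑ j ∈ range (β + 1), C (hcr H (G.coeff j) (P.map PowerSeries.C) (Q.map PowerSeries.C)) *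
    (P'.map C) ^ j * (Q'.map C) ^ (β - j)

/-- the coefficients (in the outer variable) raised to the power `n` -/
noncomputable def frP (n : ℕ) (G : (PowerSeries E)[X][X]) : (PowerSeries E)[X][X] :=
  ∑ j ∈ range (G.natDegree + 1), C (G.coeff j ^ n) * X ^ j

/-- the polynomial which vanishes if `G` is a constant times the power of exponent `β₀` of a
polynomial `Y ^ (l ^ t) - γ`; here `β = l ^ t β₀` -/
noncomputable def pp (l t β₀ : ℕ) (G : (PowerSeries E)[X][X]) : (PowerSeries E)[X][X] :=
  C (((β₀ : (PowerSeries E)[X]) * G.coeff (l ^ t * β₀)) ^ β₀) * G -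
    C (G.coeff (l ^ t * β₀)) * (C ((β₀ : (PowerSeries E)[X]) * G.coeff (l ^ t * β₀)) * X ^ l ^ t +
      C (G.coeff (l ^ t * β₀ - l ^ t))) ^ β₀

/-- a local model of `G` at `y`: a multiple of `G` modulo `δ ^ M` whose leading coefficient (of
degree `β` in the outer variable) is a unit at `y` -/
structure LM (β M : ℕ) (G H' : (PowerSeries E)[X][X]) (y : E) : Prop where
  deg : H'.natDegree ≤ β
  unit : ((H'.coeff β).map PowerSeries.constantCoeff).eval y ≠ 0
  dv : Dv M (C (H'.coeff β) * G - C (G.coeff β) * H')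

/-- `ψ` is an isometric embedding of the power series -/
def IsPs {L Λ : Type*} [Field L] [NormedField Λ] (ψ : PowerSeries L →+* Λ) : Prop :=
  ∀ (f : PowerSeries L) (n : ℕ), ‖ψ f‖ ≤ Real.exp (-(n : ℝ)) ↔ (PowerSeries.X : PowerSeries L) ^ n ∣ f

/-- the fibre of `G` over `y`, a polynomial over `Λ` -/
noncomputable def gt {L Λ : Type*} [Field L] [NormedField Λ] (ψ : PowerSeries L →+* Λ)
    (G : (PowerSeries L)[X][X]) (y : L) : Λ[X] :=
  G.map (eval₂RingHom ψ (ψ (PowerSeries.C y)))

end Pool.Agent.Q41.SP
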