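import Pool.Agent.Q41.SP.Defs2

/-!
# Definitions, part 3: frames and levels

`E` is a field of characteristic `l`. The elements of `E ^ (l ^ K)` are the elements
`w ^ (l ^ K)`; a polynomial has coefficients in `E ^ (l ^ K)` if it is
`p₀.map (iterateFrobenius E l K)`.
-/

namespace Pool.Agent.Q41.SP

open Finset Polynomial
open Pool.Agent.Q41.SU

universe u

variable {E : Type*} [Field E]

/-- `p / q ∘ μ = μ ∘ p' / q'` -/
structure Cj (d : ℕ) (μ : Mb E) (p q p' q' : E[X]) : Prop where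
  det : μ.det ≠ 0
  rm : RM d p' q'
  eq : hcm d p (C μ.α * X + C μ.β) (C μ.γ * X + C μ.δ) * (C μ.γ * p' + C μ.δ * q') =
    hcm d q (C μ.α * X + C μ.β) (C μ.γ * X + C μ.δ) * (C μ.α * p' + C μ.β * q')

/-- in the frame `μ` the map `p / q` has coefficients in `E ^ (l ^ K)`, namely those of `p₀ / q₀`
raised to the power `l ^ K` -/
def Ov (l K d : ℕ) [ExpChar E l] (μ : Mb E) (p q p₀ q₀ : E[X]) : Prop :=
  Cj d μ p q (p₀.map (iterateFrobenius E l K)) (q₀.map (iterateFrobenius E l K))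

/-- the height is at least `K` -/
def Hgt (l K d : ℕ) [ExpChar E l] (p q : E[X]) : Prop :=
  ∃ (μ : Mb E) (p₀ q₀ : E[X]), Ov l K d μ p q p₀ q₀

/-- in the frame `μ` the point `x` is in `E ^ (l ^ K)` -/
def Sub (l K : ℕ) (μ : Mb E) (x : E) : Prop :=
  ∃ w : E, μ.den (w ^ l ^ K) ≠ 0 ∧ x = μ.app (w ^ l ^ K)

end Pool.Agent.Q41.SP
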